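import Pool.Agent.R488.Sq.Defs

set_option autoImplicit false

/-! SQ-B (helper164): `C(p+m,p)` and `C(2p+m,p)` modulo `p^2`. -/

namespace Pool.Agent.R488.Sq

open Finset Pool.Agent.R439.PL Pool.Agent.R439.PL.S4 Pool.Agent.R488.Tri Pool.Agent.R488.Cub

namespace BB

theorem fac_prod (m : ℕ) : ∏ i ∈ range m, (1 + (i : ℚ)) = (m.factorial : ℚ) := by
  induction m with
  | zero => simp
  | succ m ih =>
    rw [prod_range_succ, ih, Nat.factorial_succ]
    push_cast
    ring

theorem H_eq (m : ℕ) : ∑ i ∈ range m, (1 + (i : ℚ))⁻¹ = H m := by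
  rw [H]
  refine sum_congr rfl fun i _ => ?_
  rw [one_div, add_comm]

theorem A1 (q m : ℕ) : ((q + m).choose q : ℚ) * (m.factorial : ℚ) =
    ∏ i ∈ range m, (1 + (i : ℚ) + q) := by
  induction m with
  | zero => simp
  | succ m ih =>
    have h1 : ((q + m).choose q : ℚ) * ((q : ℚ) + m + 1) =
        ((q + (m + 1)).choose q : ℚ) * ((m : ℚ) + 1) := by
      have h := Nat.choose_mul_succ_eq (q + m) q
      have e : q + m + 1 - q = m + 1 := by omega
      rw [e] at h
      exact_mod_cast h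
    rw [prod_range_succ, ← ih, Nat.factorial_succ]
    push_cast
    linear_combination (-(m.factorial : ℚ)) * h1

theorem A2 (p m : ℕ) : ((2 * p + m).choose p : ℚ) * ∏ i ∈ range m, (1 + (i : ℚ) + p) =
    ((2 * p).choose p : ℚ) * ∏ i ∈ range m, (1 + (i : ℚ) + 2 * p) := by
  induction m with
  | zero => simp
  | succ m ih =>
    have h1 : ((2 * p + m).choose p : ℚ) * (2 * (p : ℚ) + m + 1) =
        ((2 * p + (m + 1)).choose p : ℚ) * ((p : ℚ) + m + 1) := by
      have h := Nat.choose_mul_succ_eq (2 * p + m) p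
      have e : 2 * p + m + 1 - p = p + m + 1 := by omega
      rw [e] at h
      exact_mod_cast h
    rw [prod_range_succ, prod_range_succ]
    calc ((2 * p + (m + 1)).choose p : ℚ) *
          ((∏ i ∈ range m, (1 + (i : ℚ) + p)) * (1 + (m : ℚ) + p)) =
        (((2 * p + (m + 1)).choose p : ℚ) * ((p : ℚ) + m + 1)) *
          ∏ i ∈ range m, (1 + (i : ℚ) + p) := by ring
      _ = (((2 * p + m).choose p : ℚ) * ∏ i ∈ range m, (1 + (i : ℚ) + p)) *
          (2 * (p : ℚ) + m + 1) := by rw [← h1]; ring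
      _ = _ := by rw [ih]; ring

variable {p : ℕ} [hp : Fact p.Prime]

theorem P_eq {m : ℕ} (hm : m < p) (c : ℕ) : EQ p 2 (∏ i ∈ range m, (1 + (i : ℚ) + c * p))
    ((m.factorial : ℚ) * (1 + c * (p * H m))) := by
  have hδ : I p 1 (-((c : ℚ) * p)) := (I_p.mulL (nat_mem c)).neg
  have he : ∀ i ∈ range m, U p (1 + (i : ℚ)) := by
    intro i hi
    have := U_nat (p := p) (k := i + 1) (by omega) (by have := mem_range.1 hi; omega)
    have e : ((i + 1 : ℕ) : ℚ) = 1 + (i : ℚ) := by push_cast; ring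
    rwa [e] at this
  have h := prod1 (s := range m) (e := fun i => 1 + (i : ℚ)) he hδ
  have e1 : ∏ i ∈ range m, (1 + (i : ℚ) - -((c : ℚ) * p)) =
      ∏ i ∈ range m, (1 + (i : ℚ) + c * p) :=
    prod_congr rfl fun i _ => by ring
  rw [e1, fac_prod, H_eq] at h
  have e2 : (m.factorial : ℚ) * (1 - -((c : ℚ) * p) * H m) =
      (m.factorial : ℚ) * (1 + c * (p * H m)) := by ring
  rwa [e2] at h

end BB

theorem sqB : StmtB := by
  intro p m hp hm
  have hs : I p 1 ((p : ℚ) * H m) := I_p.mulR (H_mem hm)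
  have hf : U p (m.factorial : ℚ) := U_fac hm
  have h1 := BB.P_eq hm 1
  have h2 := BB.P_eq hm 2
  have e1 : ∏ i ∈ range m, (1 + (i : ℚ) + ((1 : ℕ) : ℚ) * p) = ∏ i ∈ range m, (1 + (i : ℚ) + p) :=
    prod_congr rfl fun i _ => by push_cast; ring
  have e2 : ∏ i ∈ range m, (1 + (i : ℚ) + ((2 : ℕ) : ℚ) * p) =
      ∏ i ∈ range m, (1 + (i : ℚ) + 2 * p) :=
    prod_congr rfl fun i _ => by push_cast; ring
  rw [e1] at h1
  rw [e2] at h2
  have hu : U p ((m.factorial : ℚ) * (1 + ((1 : ℕ) : ℚ) * (p * H m))) := by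
    refine hf.mul ?_
    have := U_small hs
    simpa using this
  have hu1 : U p (∏ i ∈ range m, (1 + (i : ℚ) + p)) := h1.symm.unit (by norm_num) hu
  constructor
  · have h3 := h1.mul (EQ.refl (p := p) (k := 2) hf.2.2)
    have e3 : (∏ i ∈ range m, (1 + (i : ℚ) + p)) * (m.factorial : ℚ)⁻¹ = ((p + m).choose p : ℚ) := by
      rw [← BB.A1, mul_assoc, mul_inv_cancel₀ hf.1, mul_one]
    have e4 : (m.factorial : ℚ) * (1 + ((1 : ℕ) : ℚ) * (p * H m)) * (m.factorial : ℚ)⁻¹ =
        1 + p * H m := by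
      have := hf.1
      field_simp
      push_cast
      ring
    rwa [e3, e4] at h3
  · have h3 := h1.inv (by norm_num) hu1
    have h4 := ((choose_2p (p := p)).mul h2).mul h3
    have e3 : ((2 * p).choose p : ℚ) * (∏ i ∈ range m, (1 + (i : ℚ) + 2 * p)) *
        (∏ i ∈ range m, (1 + (i : ℚ) + p))⁻¹ = ((2 * p + m).choose p : ℚ) := by
      rw [← BB.A2, mul_assoc, mul_inv_cancel₀ hu1.1, mul_one]
    have e4 : 2 * ((m.factorial : ℚ) * (1 + ((2 : ℕ) : ℚ) * (p * H m))) *
        ((m.factorial : ℚ) * (1 + ((1 : ℕ) : ℚ) * (p * H m)))⁻¹ =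
        2 * ((1 + 2 * (p * H m)) * (1 + p * H m)⁻¹) := by
      have := hf.1
      rw [mul_inv]
      push_cast
      rw [one_mul]
      field_simp
    rw [e3, e4] at h4
    refine h4.trans ?_
    have hs2 : I p 1 (2 * ((p : ℚ) * H m)) := hs.mulL (by exact_mod_cast nat_mem (p := p) 2)
    have h5 := (EQ.refl (p := p) (k := 2) (add_mem (one_mem _) hs2.mem)).mul (inv_small hs)
    have h6 := mul_small hs2 hs.neg
    have e5 : (1 + 2 * ((p : ℚ) * H m)) * (1 - p * H m) =
        (1 + 2 * ((p : ℚ) * H m)) * (1 + -(p * H m)) := by ring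
    rw [e5] at h5
    have h7 := h5.trans h6
    have e6 : 1 + 2 * ((p : ℚ) * H m) + -(p * H m) = 1 + p * H m := by ring
    rw [e6] at h7
    exact (EQ.refl (p := p) (k := 2) (by exact_mod_cast nat_mem (p := p) 2)).mul h7

end Pool.Agent.R488.Sq
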