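import Mathlib
import Pool.Agent.R488.Nin.Eval2

set_option autoImplicit false

/-!
Statements for MP_ffaf6e_nt (truncated sums at `-9/16`).  Throughout `p = 6j+1`,
`a = 64^j-1`, `b = (-27)^j-1`.
-/

namespace Pool.Agent.R488.Sq

open Finset Pool.Agent.R439.PL Pool.Agent.R488.Cub Pool.Agent.R488.Nin

/-- the Legendre polynomial `P_n(x)` at `x = 1-2(9/8) = -5/4` -/
def PL (n : ℕ) : ℚ := ∑ k ∈ range (n + 1),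
  (n.choose k : ℚ) * ((n + k).choose k : ℚ) * (-(9 / 8)) ^ k

/-- truncated `2F1(a,b;1;-9/16)` -/
def QQ (a b : ℚ) (m : ℕ) : ℚ := ∑ k ∈ range m,
  (∏ i ∈ range k, ((a + i) * (b + i) / ((1 + i) * (1 + i)))) * (-(9 / 16)) ^ k

/-- SQ-Q -/
def StmtQ : Prop := ∀ m : ℕ, PL (2 * m) = QQ (-m) (m + 1 / 2) (m + 1) ∧
  PL (2 * m + 1) = -(5 / 4) * QQ (-m) (m + 3 / 2) (m + 1)

/-- the four-parameter term -/
def tt (a b c d : ℚ) (k : ℕ) : ℚ := (9 / 8) ^ k * ∏ i ∈ range k,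
  ((1 / 3 + i + a) * (2 / 3 + i + b) * ((1 + i + c) * (1 + i + d))⁻¹)

def ff (p : ℕ) (a b c d : ℚ) : ℚ := ∑ k ∈ range p, tt a b c d k

/-- SQ-S -/
def StmtS : Prop := ∀ (p j : ℕ), 0 < j → p = 6 * j + 1 →
  PL (2 * j) = ff p (-(p / 3)) (p / 3) 0 0 ∧
  PL (4 * j) = ff p (2 * (p / 3)) (-(2 * (p / 3))) 0 0 ∧
  PL (8 * j + 1) = ff p (-(4 * (p / 3))) (4 * (p / 3)) 0 0 +
    ((8 * j + 1).choose p : ℚ) * ((8 * j + 1 + p).choose p : ℚ) * (-(9 / 8)) ^ p *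
      ff p (-(p / 3)) (7 * (p / 3)) p p ∧
  PL (10 * j + 1) = ff p (5 * (p / 3)) (-(5 * (p / 3))) 0 0 +
    ((10 * j + 1).choose p : ℚ) * ((10 * j + 1 + p).choose p : ℚ) * (-(9 / 8)) ^ p *
      ff p (8 * (p / 3)) (-(2 * (p / 3))) p p

/-- SQ-T -/
def StmtT : Prop := ∀ (p j : ℕ), 0 < j → p = 6 * j + 1 →
  ∑ k ∈ range (8 * j + 2), FA (8 * j + 1) k =
    ff p (-(4 * (p / 3))) (-(4 * (p / 3))) (-(4 * p)) 0 +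
      FA (8 * j + 1) p * ff p (-(p / 3)) (-(p / 3)) (-(3 * p)) p

/-- SQ-B -/
def StmtB : Prop := ∀ (p m : ℕ) [Fact p.Prime], m < p →
  EQ p 2 ((p + m).choose p : ℚ) (1 + p * H m) ∧
  EQ p 2 ((2 * p + m).choose p : ℚ) (2 * (1 + p * H m))

/-- SQ-TAU -/
def StmtTau : Prop := ∀ (p j : ℕ) [Fact p.Prime], p = 6 * j + 1 → ∀ a b : ℚ,
  a = 64 ^ j - 1 → b = (-27) ^ j - 1 → EQ p 2 (FA (8 * j + 1) p) (-(1 / 4) * (1 - 3 * a - 2 * b))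

/-- SQ-R -/
def StmtR : Prop := ∀ (p j : ℕ) [Fact p.Prime], p = 6 * j + 1 → ∀ a b : ℚ,
  a = 64 ^ j - 1 → b = (-27) ^ j - 1 →
  EQ p 2 ((1 / 2) ^ (8 * j + 1) * ∏ i ∈ range (8 * j + 1), ((1 / 2 + i) / (1 / 3 + i) : ℚ))
    (3 / 4 * ((4 * j).choose (2 * j) : ℚ) * (1 - 4 * a - 4 * b))

end Pool.Agent.R488.Sq
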