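import Mathlib
import Pool.Agent.R488.Sq.Defs

set_option autoImplicit false

/-!
Functions of four variables which are affine modulo `p^2` on `p Z_p`.
-/

namespace Pool.Agent.R488.Sq

open Finset Pool.Agent.R439.PL Pool.Agent.R439.PL.S4 Pool.Agent.R488.Tri Pool.Agent.R488.Cub
  Pool.Agent.R488.Nin

variable {p j : ℕ} [hp : Fact p.Prime]

def Lin4 (p : ℕ) [Fact p.Prime] (f : ℚ → ℚ → ℚ → ℚ → ℚ) : Prop :=
  ∃ x ∈ Zp p, ∃ y ∈ Zp p, ∃ z ∈ Zp p, ∃ w ∈ Zp p, ∀ a b c d, I p 1 a → I p 1 b → I p 1 c → I p 1 d →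
    EQ p 2 (f a b c d) (f 0 0 0 0 + (x * a + y * b + z * c + w * d))

theorem Lin4.zero {f : ℚ → ℚ → ℚ → ℚ → ℚ} (h : Lin4 p f) : f 0 0 0 0 ∈ Zp p := by
  obtain ⟨x, _, y, _, z, _, w, _, h⟩ := h
  exact (h 0 0 0 0 I.zero I.zero I.zero I.zero).1

theorem Lin4.affine {s x y z w : ℚ} (hs : s ∈ Zp p) (hx : x ∈ Zp p) (hy : y ∈ Zp p) (hz : z ∈ Zp p)
    (hw : w ∈ Zp p) : Lin4 p (fun a b c d => s + (x * a + y * b + z * c + w * d)) := by
  refine ⟨x, hx, y, hy, z, hz, w, hw, fun a b c d ha hb hc hd => ?_⟩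
  beta_reduce
  have e : s + (x * 0 + y * 0 + z * 0 + w * 0) + (x * a + y * b + z * c + w * d) =
    s + (x * a + y * b + z * c + w * d) := by ring
  rw [e]
  exact EQ.refl (add_mem hs (add_mem (add_mem (add_mem (mul_mem hx ha.mem) (mul_mem hy hb.mem))
    (mul_mem hz hc.mem)) (mul_mem hw hd.mem)))

theorem Lin4.mul {f g : ℚ → ℚ → ℚ → ℚ → ℚ} (hf : Lin4 p f) (hg : Lin4 p g) :
    Lin4 p (fun a b c d => f a b c d * g a b c d) := by
  have f0 := hf.zero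
  have g0 := hg.zero
  obtain ⟨x, hx, y, hy, z, hz, w, hw, hf⟩ := hf
  obtain ⟨x', hx', y', hy', z', hz', w', hw', hg⟩ := hg
  refine ⟨x * g 0 0 0 0 + x' * f 0 0 0 0, add_mem (mul_mem hx g0) (mul_mem hx' f0),
    y * g 0 0 0 0 + y' * f 0 0 0 0, add_mem (mul_mem hy g0) (mul_mem hy' f0),
    z * g 0 0 0 0 + z' * f 0 0 0 0, add_mem (mul_mem hz g0) (mul_mem hz' f0),
    w * g 0 0 0 0 + w' * f 0 0 0 0, add_mem (mul_mem hw g0) (mul_mem hw' f0),
    fun a b c d ha hb hc hd => ?_⟩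
  have h1 := (hf a b c d ha hb hc hd).mul (hg a b c d ha hb hc hd)
  have hl : I p 1 (x * a + y * b + z * c + w * d) :=
    (((ha.mulL hx).add (hb.mulL hy)).add (hc.mulL hz)).add (hd.mulL hw)
  have hl' : I p 1 (x' * a + y' * b + z' * c + w' * d) :=
    (((ha.mulL hx').add (hb.mulL hy')).add (hc.mulL hz')).add (hd.mulL hw')
  have key : (f 0 0 0 0 + (x * a + y * b + z * c + w * d)) * (g 0 0 0 0 + (x' * a + y' * b + z' * c + w' * d)) -
      (f 0 0 0 0 * g 0 0 0 0 + ((x * g 0 0 0 0 + x' * f 0 0 0 0) * a + (y * g 0 0 0 0 + y' * f 0 0 0 0) * b +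
        (z * g 0 0 0 0 + z' * f 0 0 0 0) * c + (w * g 0 0 0 0 + w' * f 0 0 0 0) * d)) =
      (x * a + y * b + z * c + w * d) * (x' * a + y' * b + z' * c + w' * d) := by ring
  refine h1.trans ⟨h1.2.1, ?_, ?_⟩
  · have := sub_mem h1.2.1 (hl.mul hl').mem
    rw [← key] at this
    simpa using this
  · rw [key]
    exact hl.mul hl'

theorem Lin4.inv {f : ℚ → ℚ → ℚ → ℚ → ℚ} (hf : Lin4 p f) (h0 : U p (f 0 0 0 0)) :
    Lin4 p (fun a b c d => (f a b c d)⁻¹) := by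
  obtain ⟨x, hx, y, hy, z, hz, w, hw, hf⟩ := hf
  have m0 : -((f 0 0 0 0)⁻¹ * (f 0 0 0 0)⁻¹) ∈ Zp p := neg_mem (mul_mem h0.2.2 h0.2.2)
  refine ⟨-((f 0 0 0 0)⁻¹ * (f 0 0 0 0)⁻¹) * x, mul_mem m0 hx, -((f 0 0 0 0)⁻¹ * (f 0 0 0 0)⁻¹) * y, mul_mem m0 hy,
    -((f 0 0 0 0)⁻¹ * (f 0 0 0 0)⁻¹) * z, mul_mem m0 hz, -((f 0 0 0 0)⁻¹ * (f 0 0 0 0)⁻¹) * w, mul_mem m0 hw,
    fun a b c d ha hb hc hd => ?_⟩
  have h1 := hf a b c d ha hb hc hd
  have hl : I p 1 (x * a + y * b + z * c + w * d) :=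
    (((ha.mulL hx).add (hb.mulL hy)).add (hc.mulL hz)).add (hd.mulL hw)
  have e0 : (f 0 0 0 0)⁻¹ + (-((f 0 0 0 0)⁻¹ * (f 0 0 0 0)⁻¹) * x * a + -((f 0 0 0 0)⁻¹ * (f 0 0 0 0)⁻¹) * y * b +
      -((f 0 0 0 0)⁻¹ * (f 0 0 0 0)⁻¹) * z * c + -((f 0 0 0 0)⁻¹ * (f 0 0 0 0)⁻¹) * w * d) =
      (f 0 0 0 0)⁻¹ + -((f 0 0 0 0)⁻¹ * (f 0 0 0 0)⁻¹) * (x * a + y * b + z * c + w * d) := by ring
  beta_reduce
  rw [e0]
  generalize x * a + y * b + z * c + w * d = l at *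
  generalize f 0 0 0 0 = f0 at *
  have h2 : EQ p 1 f0 (f0 + l) := ⟨h0.2.1, h1.2.1, by
    have : f0 - (f0 + l) = -l := by ring
    rw [this]; exact hl.neg⟩
  have u1 := h2.unit (by norm_num) h0
  have h3 := (h1.symm.inv (by norm_num) u1).symm
  refine h3.trans ⟨h3.2.1, ?_, ?_⟩
  · exact add_mem h0.2.2 (mul_mem m0 hl.mem)
  · have a1 := u1.1
    have a2 := h0.1
    have : (f0 + l)⁻¹ - (f0⁻¹ + -(f0⁻¹ * f0⁻¹) * l) = (l * l) * (f0⁻¹ * f0⁻¹ * (f0 + l)⁻¹) := by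
      field_simp
      ring
    rw [this]
    exact (hl.mul hl).mulR (mul_mem (mul_mem h0.2.2 h0.2.2) u1.2.2)

theorem Lin4.sum {ι : Type*} {s : Finset ι} {f : ι → ℚ → ℚ → ℚ → ℚ → ℚ} (h : ∀ i ∈ s, Lin4 p (f i)) :
    Lin4 p (fun a b c d => ∑ i ∈ s, f i a b c d) := by
  classical
  induction s using Finset.induction_on with
  | empty => simpa using Lin4.affine (p := p) (zero_mem _) (zero_mem _) (zero_mem _) (zero_mem _) (zero_mem _)
  | insert r s hr ih =>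
    obtain ⟨x, hx, y, hy, z, hz, w, hw, h1⟩ := h r (mem_insert_self _ _)
    obtain ⟨x', hx', y', hy', z', hz', w', hw', h2⟩ := ih fun i hi => h i (mem_insert_of_mem hi)
    refine ⟨x + x', add_mem hx hx', y + y', add_mem hy hy', z + z', add_mem hz hz', w + w', add_mem hw hw',
      fun a b c d ha hb hc hd => ?_⟩
    beta_reduce
    rw [sum_insert hr, sum_insert hr]
    have := (h1 a b c d ha hb hc hd).add (h2 a b c d ha hb hc hd)
    beta_reduce at this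
    have e1 : f r 0 0 0 0 + (x * a + y * b + z * c + w * d) + (∑ i ∈ s, f i 0 0 0 0 +
        (x' * a + y' * b + z' * c + w' * d)) = f r 0 0 0 0 + ∑ i ∈ s, f i 0 0 0 0 +
        ((x + x') * a + (y + y') * b + (z + z') * c + (w + w') * d) := by ring
    rwa [e1] at this

theorem Lin4.prod {ι : Type*} {s : Finset ι} {f : ι → ℚ → ℚ → ℚ → ℚ → ℚ} (h : ∀ i ∈ s, Lin4 p (f i)) :
    Lin4 p (fun a b c d => ∏ i ∈ s, f i a b c d) := by
  classical
  induction s using Finset.induction_on with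
  | empty =>
    have := Lin4.affine (p := p) (one_mem _) (zero_mem _) (zero_mem _) (zero_mem _) (zero_mem _)
    simpa using this
  | insert a s ha ih =>
    have := (h a (mem_insert_self _ _)).mul (ih fun i hi => h i (mem_insert_of_mem hi))
    simpa [prod_insert ha] using this

theorem lin_ff (hpj : p = 6 * j + 1) : Lin4 p (ff p) := by
  have u3 := U3 hpj
  have u2 := U2 hpj
  have m13 : (1 / 3 : ℚ) ∈ Zp p := by rw [one_div]; exact u3.2.2
  have m23 : (2 / 3 : ℚ) ∈ Zp p := by rw [div_eq_mul_inv]; exact mul_mem u2.2.1 u3.2.2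
  have h98 : (9 / 8 : ℚ) ∈ Zp p := by
    have : (9 / 8 : ℚ) = 3 * 3 * (2⁻¹ * 2⁻¹ * 2⁻¹) := by norm_num
    rw [this]; exact mul_mem (mul_mem u3.2.1 u3.2.1) (mul_mem (mul_mem u2.2.2 u2.2.2) u2.2.2)
  refine Lin4.sum fun k hk => ?_
  have hk' := mem_range.1 hk
  have h9 : (9 / 8 : ℚ) ^ k ∈ Zp p := pow_mem h98 _
  have h1 : Lin4 p (fun a b c d => (9 / 8 : ℚ) ^ k + (0 * a + 0 * b + 0 * c + 0 * d)) :=
    Lin4.affine h9 (zero_mem _) (zero_mem _) (zero_mem _) (zero_mem _)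
  have h2 : Lin4 p (fun a b c d => ∏ i ∈ range k,
      (((1 / 3 + i : ℚ) + (1 * a + 0 * b + 0 * c + 0 * d)) * ((2 / 3 + i : ℚ) + (0 * a + 1 * b + 0 * c + 0 * d)) *
        (((1 + i : ℚ) + (0 * a + 0 * b + 1 * c + 0 * d)) * ((1 + i : ℚ) + (0 * a + 0 * b + 0 * c + 1 * d)))⁻¹)) := by
    refine Lin4.prod fun i hi => ?_
    have hi' := mem_range.1 hi
    have a1 : (1 / 3 + i : ℚ) ∈ Zp p := add_mem m13 (nat_mem i)
    have a2 : (2 / 3 + i : ℚ) ∈ Zp p := add_mem m23 (nat_mem i)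
    have u1 := U_nat (p := p) (k := 1 + i) (by omega) (by omega)
    push_cast at u1
    refine ((Lin4.affine a1 (one_mem _) (zero_mem _) (zero_mem _) (zero_mem _)).mul
      (Lin4.affine a2 (zero_mem _) (one_mem _) (zero_mem _) (zero_mem _))).mul
      (Lin4.inv ((Lin4.affine u1.2.1 (zero_mem _) (zero_mem _) (one_mem _) (zero_mem _)).mul
      (Lin4.affine u1.2.1 (zero_mem _) (zero_mem _) (zero_mem _) (one_mem _))) ?_)
    simpa using u1.mul u1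
  have h3 := h1.mul h2
  have e : (fun a b c d => ((9 / 8 : ℚ) ^ k + (0 * a + 0 * b + 0 * c + 0 * d)) * ∏ i ∈ range k,
      (((1 / 3 + i : ℚ) + (1 * a + 0 * b + 0 * c + 0 * d)) * ((2 / 3 + i : ℚ) + (0 * a + 1 * b + 0 * c + 0 * d)) *
        (((1 + i : ℚ) + (0 * a + 0 * b + 1 * c + 0 * d)) * ((1 + i : ℚ) + (0 * a + 0 * b + 0 * c + 1 * d)))⁻¹)) =
      fun a b c d => tt a b c d k := by
    funext a b c d
    rw [tt]
    simp only [zero_mul, one_mul, zero_add, add_zero]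
  rwa [e] at h3

/-! ### The functions `QQ` -/

theorem lin_QQ (hpj : p = 6 * j + 1) {A B : ℚ} (hA : A ∈ Zp p) (hB : B ∈ Zp p) :
    Lin p (fun s => QQ (A + s) (B - s) p) := by
  have u3 := U3 hpj
  have u2 := U2 hpj
  have h16 : (-(9 / 16) : ℚ) ∈ Zp p := by
    have : (-(9 / 16) : ℚ) = -(3 * 3 * (2⁻¹ * 2⁻¹ * 2⁻¹ * 2⁻¹)) := by norm_num
    rw [this]; exact neg_mem (mul_mem (mul_mem u3.2.1 u3.2.1)
      (mul_mem (mul_mem (mul_mem u2.2.2 u2.2.2) u2.2.2) u2.2.2))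
  refine Lin.sum fun k hk => ?_
  have hk' := mem_range.1 hk
  have h1 : Lin p (fun u => (-(9 / 16) : ℚ) ^ k + 0 * u) := Lin.affine (pow_mem h16 _) (zero_mem _)
  have h2 : Lin p (fun u => ∏ i ∈ range k,
      (((A + i : ℚ) + 1 * u) * ((B + i : ℚ) + (-1) * u) *
        (((1 + i : ℚ) + 0 * u) * ((1 + i : ℚ) + 0 * u))⁻¹)) := by
    refine Lin.prod fun i hi => ?_
    have hi' := mem_range.1 hi
    have u1 := U_nat (p := p) (k := 1 + i) (by omega) (by omega)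
    push_cast at u1
    refine ((Lin.affine (add_mem hA (nat_mem i)) (one_mem _)).mul
      (Lin.affine (add_mem hB (nat_mem i)) (neg_mem (one_mem _)))).mul
      (Lin.inv ((Lin.affine u1.2.1 (zero_mem _)).mul (Lin.affine u1.2.1 (zero_mem _))) ?_)
    simpa using u1.mul u1
  have h3 := h2.mul h1
  have e : (fun u => (∏ i ∈ range k,
      (((A + i : ℚ) + 1 * u) * ((B + i : ℚ) + (-1) * u) *
        (((1 + i : ℚ) + 0 * u) * ((1 + i : ℚ) + 0 * u))⁻¹)) * ((-(9 / 16) : ℚ) ^ k + 0 * u)) =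
      fun u => (∏ i ∈ range k, ((A + u + i) * (B - u + i) / ((1 + i) * (1 + i)))) * (-(9 / 16)) ^ k := by
    funext u
    rw [zero_mul, add_zero]
    congr 1
    refine prod_congr rfl fun i _ => ?_
    rw [div_eq_mul_inv, add_zero]
    congr 1
    ring
  rwa [e] at h3

theorem Lin.two {f : ℚ → ℚ} (h : Lin p f) {u v s t : ℚ} (hu : I p 1 u) (hv : I p 1 v) (hs : s ∈ Zp p)
    (ht : t ∈ Zp p) (h1 : s + t = 1) (h2 : s * u + t * v = 0) : EQ p 2 (f 0) (s * f u + t * f v) := by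
  obtain ⟨d, hd, h⟩ := h
  have h3 := (((EQ.refl (k := 2) hs).mul (h u hu)).add ((EQ.refl (k := 2) ht).mul (h v hv))).symm
  have e : s * (f 0 + d * u) + t * (f 0 + d * v) = f 0 := by
    linear_combination (f 0) * h1 + d * h2
  rwa [e] at h3

theorem QQ_symm (a b : ℚ) (m : ℕ) : QQ a b m = QQ b a m := by
  refine sum_congr rfl fun k _ => ?_
  congr 1
  refine prod_congr rfl fun i _ => ?_
  rw [mul_comm (a + i)]

theorem QQ_trunc {m n : ℕ} (h : m + 1 ≤ n) (b : ℚ) : QQ (-m) b n = QQ (-m) b (m + 1) := by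
  symm
  refine sum_subset (range_subset_range.2 h) fun k _ hk => ?_
  rw [prod_eq_zero (i := m) (mem_range.2 (by have := mt mem_range.2 hk; omega)), zero_mul]
  rw [neg_add_cancel, zero_mul, zero_div]

theorem ff_zero (p : ℕ) : ff p 0 0 0 0 = AA p 0 := by
  refine sum_congr rfl fun k _ => ?_
  rw [tt, tn]
  simp only [mul_zero, add_zero, sub_zero]

theorem ff_one (p : ℕ) : ff p (-(p / 3)) (-(p / 3)) (-(3 * (p / 3))) 0 = AA p (p / 3) := by
  refine sum_congr rfl fun k _ => ?_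
  rw [tt, tn]
  simp only [← sub_eq_add_neg, add_zero]

theorem ff_symm (p : ℕ) (a b c d : ℚ) : ff p a b c d = ff p a b d c := by
  refine sum_congr rfl fun k _ => ?_
  rw [tt, tt]
  congr 1
  refine prod_congr rfl fun i _ => ?_
  rw [mul_comm (1 + (i : ℚ) + c)]

end Pool.Agent.R488.Sq
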