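import Mathlib
import Pool.Agent.R488.Sq.Lin4
import Pool.Agent.R488.Nin.Main

set_option autoImplicit false

/-!
The two truncated sums at `-9/16` are `C(4j,2j)` modulo `p^2`, `p = 6j+1`.
-/

namespace Pool.Agent.R488.Sq

open Finset Pool.Agent.R439.PL Pool.Agent.R439.PL.S4 Pool.Agent.R488.Tri Pool.Agent.R488.Cub
  Pool.Agent.R488.Nin

variable {p j : ℕ} [hp : Fact p.Prime]

/-- `(9/8)^p = 9/8 (1 + 4b - 3a)` -/
theorem pow98 (hpj : p = 6 * j + 1) {a b : ℚ} (ha : a = 64 ^ j - 1) (hb : b = (-27) ^ j - 1)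
    (Ia : I p 1 a) (Ib : I p 1 b) : EQ p 2 ((9 / 8 : ℚ) ^ p) (9 / 8 * (1 + (4 * b - 3 * a))) := by
  have u3 := U3 hpj
  have u2 := U2 hpj
  have u4 := U4 hpj
  have h98 : (9 / 8 : ℚ) ∈ Zp p := by
    have : (9 / 8 : ℚ) = 3 * 3 * (2⁻¹ * 2⁻¹ * 2⁻¹) := by norm_num
    rw [this]; exact mul_mem (mul_mem u3.2.1 u3.2.1) (mul_mem (mul_mem u2.2.2 u2.2.2) u2.2.2)
  have e : (9 / 8 : ℚ) ^ p = 9 / 8 * (((1 + b) * (1 + b)) * ((1 + b) * (1 + b)) *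
      ((1 + a)⁻¹ * (1 + a)⁻¹ * (1 + a)⁻¹)) := by
    have e1 : (1 + b : ℚ) = (-27) ^ j := by rw [hb]; ring
    have e2 : (1 + a : ℚ) = 64 ^ j := by rw [ha]; ring
    rw [e1, e2, hpj, pow_succ, pow_mul, ← mul_pow, ← mul_pow, ← inv_pow, ← mul_pow, ← mul_pow, ← mul_pow,
      mul_comm]
    norm_num
  rw [e]
  have I2b : I p 1 (b + b) := Ib.add Ib
  have h1 : EQ p 2 ((1 + b) * (1 + b)) (1 + (b + b)) := by
    have := mul_small Ib Ib
    have x : 1 + b + b = 1 + (b + b) := by ring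
    rwa [x] at this
  have h2 := (h1.mul h1).trans (mul_small I2b I2b)
  have i1 := inv_small Ia
  rw [sub_eq_add_neg] at i1
  have I2a : I p 1 (-a + -a) := Ia.neg.add Ia.neg
  have h3 : EQ p 2 ((1 + a)⁻¹ * (1 + a)⁻¹) (1 + (-a + -a)) := by
    have := (i1.mul i1).trans (mul_small Ia.neg Ia.neg)
    have x : 1 + -a + -a = 1 + (-a + -a) := by ring
    rwa [x] at this
  have h4 := (h3.mul i1).trans (mul_small I2a Ia.neg)
  have x1 : 1 + (b + b) + (b + b) = 1 + (b + b + (b + b)) := by ring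
  have x2 : 1 + (-a + -a) + -a = 1 + (-a + -a + -a) := by ring
  rw [x1] at h2
  rw [x2] at h4
  have h5 := (h2.mul h4).trans (mul_small (I2b.add I2b) (I2a.add Ia.neg))
  have x3 : 1 + (b + b + (b + b)) + (-a + -a + -a) = 1 + (4 * b - 3 * a) := by ring
  rw [x3] at h5
  exact (EQ.refl h98).mul h5

/-- S_1 -/
theorem S1_eq (hQ : StmtQ) (hS : StmtS) (hpj : p = 6 * j + 1) :
    EQ p 2 (QQ (1 / 3) (1 / 6) p) (ff p 0 0 0 0) := by
  have hpq : (p : ℚ) = 6 * j + 1 := by exact_mod_cast hpj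
  have hj := j_pos hpj
  have u3 := U3 hpj
  have u2 := U2 hpj
  have u6 := U6 hpj
  have m13 : (1 / 3 : ℚ) ∈ Zp p := by rw [one_div]; exact u3.2.2
  have m16 : (1 / 6 : ℚ) ∈ Zp p := by rw [one_div]; exact u6.2.2
  have m23 : (2 / 3 : ℚ) ∈ Zp p := by rw [div_eq_mul_inv]; exact mul_mem u2.2.1 u3.2.2
  have hd3 : I p 1 ((p : ℚ) / 3) := by rw [div_eq_mul_inv]; exact (I_p (p := p)).mulR u3.2.2
  have hd6 : I p 1 ((p : ℚ) / 6) := by rw [div_eq_mul_inv]; exact (I_p (p := p)).mulR u6.2.2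
  obtain ⟨s1, s2, -, -⟩ := hS p j hj hpj
  have q1 : QQ (1 / 3 + -((p : ℚ) / 3)) (1 / 6 - -((p : ℚ) / 3)) p = PL (4 * j) := by
    have := (hQ (2 * j)).1
    rw [show 2 * (2 * j) = 4 * j by ring] at this
    rw [this, ← QQ_trunc (n := p) (by omega)]
    congr 1
    · rw [hpq]; push_cast; ring
    · rw [hpq]; push_cast; ring
  have q2 : QQ (1 / 3 + (p : ℚ) / 6) (1 / 6 - (p : ℚ) / 6) p = PL (2 * j) := by
    rw [(hQ j).1, QQ_symm, ← QQ_trunc (n := p) (by omega)]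
    congr 1
    · rw [hpq]; ring
    · rw [hpq]; ring
  have h1 := Lin.two (lin_QQ hpj m13 m16) (u := -((p : ℚ) / 3)) (v := (p : ℚ) / 6) (s := 1 / 3) (t := 2 / 3)
    hd3.neg hd6 m13 m23 (by norm_num) (by ring)
  beta_reduce at h1
  rw [q1, q2, add_zero, sub_zero, s1, s2] at h1
  obtain ⟨x, hx, y, hy, z, hz, w, hw, hl⟩ := lin_ff (p := p) hpj
  have h23 : I p 1 (2 * ((p : ℚ) / 3)) := hd3.mulL u2.2.1
  have l1 := hl _ _ _ _ h23 h23.neg I.zero I.zero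
  have l2 := hl _ _ _ _ hd3.neg hd3 I.zero I.zero
  have h2 := ((EQ.refl (k := 2) m13).mul l1).add ((EQ.refl (k := 2) m23).mul l2)
  have e : 1 / 3 * (ff p 0 0 0 0 + (x * (2 * ((p : ℚ) / 3)) + y * -(2 * ((p : ℚ) / 3)) + z * 0 + w * 0)) +
      2 / 3 * (ff p 0 0 0 0 + (x * -((p : ℚ) / 3) + y * ((p : ℚ) / 3) + z * 0 + w * 0)) = ff p 0 0 0 0 := by ring
  rw [e] at h2
  exact h1.trans h2

/-- the derivatives of the four-parameter function and S_2 -/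
theorem S2_eq (hQ : StmtQ) (hS : StmtS) (hT : StmtT) (hB : StmtB) (hTau : StmtTau) (hR : StmtR)
    (hpj : p = 6 * j + 1) :
    EQ p 2 (QQ (2 / 3) (5 / 6) p) ((4 * j).choose (2 * j) : ℚ) := by
  obtain ⟨a, b, C4, C3, C2, hC4, hC3, hC2, ha, hb, Ia, Ib, uC4, mC3, mC2, E3, E2, E1, e1, e6⟩ :=
    facts harm hpj
  have hpq : (p : ℚ) = 6 * j + 1 := by exact_mod_cast hpj
  have hj := j_pos hpj
  have u3 := U3 hpj
  have u2 := U2 hpj
  have u6 := U6 hpj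
  have u4 := U4 hpj
  have m5 : (5 : ℚ) ∈ Zp p := by exact_mod_cast nat_mem (p := p) 5
  have m7 : (7 : ℚ) ∈ Zp p := by exact_mod_cast nat_mem (p := p) 7
  have m8 : (8 : ℚ) ∈ Zp p := by exact_mod_cast nat_mem (p := p) 8
  have m13 : (1 / 3 : ℚ) ∈ Zp p := by rw [one_div]; exact u3.2.2
  have m14 : (1 / 4 : ℚ) ∈ Zp p := by rw [one_div]; exact u4.2.2
  have m59 : (5 / 9 : ℚ) ∈ Zp p := by
    have : (5 / 9 : ℚ) = 5 * (3⁻¹ * 3⁻¹) := by norm_num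
    rw [this]; exact mul_mem m5 (mul_mem u3.2.2 u3.2.2)
  have m49 : (4 / 9 : ℚ) ∈ Zp p := by
    have : (4 / 9 : ℚ) = 4 * (3⁻¹ * 3⁻¹) := by norm_num
    rw [this]; exact mul_mem u4.2.1 (mul_mem u3.2.2 u3.2.2)
  have m23 : (2 / 3 : ℚ) ∈ Zp p := by rw [div_eq_mul_inv]; exact mul_mem u2.2.1 u3.2.2
  have m56 : (5 / 6 : ℚ) ∈ Zp p := by rw [div_eq_mul_inv]; exact mul_mem m5 u6.2.2
  have hd3 : I p 1 ((p : ℚ) / 3) := by rw [div_eq_mul_inv]; exact (I_p (p := p)).mulR u3.2.2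
  have hd6 : I p 1 ((p : ℚ) / 6) := by rw [div_eq_mul_inv]; exact (I_p (p := p)).mulR u6.2.2
  have hP : I p 1 (p : ℚ) := I_p
  -- the linear functional
  obtain ⟨x, hx, y, hy, z, hz, w, hw, hl⟩ := lin_ff (p := p) hpj
  obtain ⟨f0, hf0⟩ : ∃ f0 : ℚ, f0 = ff p 0 0 0 0 := ⟨_, rfl⟩
  rw [← hf0] at hl
  have F0 : EQ p 2 f0 C4 := by
    rw [hf0, ff_zero, hC4]; exact (both (p := p) hpj).1
  -- strange evaluation at n = 2j
  have V1 : EQ p 2 (f0 + (x * -((p : ℚ) / 3) + y * -((p : ℚ) / 3) + z * -(3 * ((p : ℚ) / 3)) + w * 0))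
      (C4 * (1 + (-a + -b))) := by
    have h1 := hl _ _ _ _ hd3.neg hd3.neg (hd3.mulL u3.2.1).neg I.zero
    rw [ff_one] at h1
    exact h1.symm.trans (alpha_eq evA hpj hC4 ha Ia Ib uC4 E2)
  -- symmetry
  have W1 : I p 2 (z * p - w * p) := by
    have h1 := hl 0 0 p 0 I.zero I.zero hP I.zero
    have h2 := hl 0 0 0 p I.zero I.zero I.zero hP
    rw [ff_symm] at h1
    have h3 := (h1.symm.trans h2).2.2
    have e : f0 + (x * 0 + y * 0 + z * (p : ℚ) + w * 0) - (f0 + (x * 0 + y * 0 + z * 0 + w * (p : ℚ))) =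
      z * p - w * p := by ring
    rwa [e] at h3
  -- strange evaluation at n = 8j+1
  obtain ⟨T, hTd⟩ : ∃ T : ℚ, T = FA (8 * j + 1) p := ⟨_, rfl⟩
  have T1 : EQ p 2 T (-(1 / 4) * (1 - 3 * a - 2 * b)) := by rw [hTd]; exact hTau p j hpj a b ha hb
  have V2 : EQ p 2 (f0 + (x * -(4 * ((p : ℚ) / 3)) + y * -(4 * ((p : ℚ) / 3)) + z * -(4 * (p : ℚ)) + w * 0) +
      T * (f0 + (x * -((p : ℚ) / 3) + y * -((p : ℚ) / 3) + z * -(3 * (p : ℚ)) + w * (p : ℚ))))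
      (3 / 4 * C4 * (1 - 4 * a - 4 * b)) := by
    have h1 := hl _ _ _ _ (hd3.mulL u4.2.1).neg (hd3.mulL u4.2.1).neg (hP.mulL u4.2.1).neg I.zero
    have h2 := hl _ _ _ _ hd3.neg hd3.neg (hP.mulL u3.2.1).neg hP
    have h3 := h1.add ((EQ.refl (k := 2) T1.1).mul h2)
    have h4 := hT p j hj hpj
    rw [← hTd] at h4
    rw [← h4, show 8 * j + 2 = (8 * j + 1) + 1 by ring, evA] at h3
    have h5 := hR p j hpj a b ha hb
    rw [← hC4] at h5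
    exact h3.symm.trans h5
  -- the small quantities
  obtain ⟨X, hX⟩ : ∃ X : ℚ, X = x * p := ⟨_, rfl⟩
  obtain ⟨Y, hY⟩ : ∃ Y : ℚ, Y = y * p := ⟨_, rfl⟩
  obtain ⟨Z, hZ⟩ : ∃ Z : ℚ, Z = z * p := ⟨_, rfl⟩
  obtain ⟨W, hW⟩ : ∃ W : ℚ, W = w * p := ⟨_, rfl⟩
  have IX : I p 1 X := by rw [hX]; exact hP.mulL hx
  have IY : I p 1 Y := by rw [hY]; exact hP.mulL hy
  have IZ : I p 1 Z := by rw [hZ]; exact hP.mulL hz
  have IW : I p 1 W := by rw [hW]; exact hP.mulL hw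
  have mC := uC4.2.1
  -- relation 1
  have r1 : I p 2 ((X + Y) * (1 / 3) + Z - C4 * (a + b)) := by
    have h := F0.2.2.sub V1.2.2
    have e : f0 - C4 - (f0 + (x * -((p : ℚ) / 3) + y * -((p : ℚ) / 3) + z * -(3 * ((p : ℚ) / 3)) + w * 0) -
      C4 * (1 + (-a + -b))) = (X + Y) * (1 / 3) + Z - C4 * (a + b) := by rw [hX, hY, hZ]; ring
    rwa [e] at h
  rw [← hZ, ← hW] at W1
  -- relation 2: Z = C4 b
  have t1 : I p 2 (T + 1 / 4 * (1 - 3 * a - 2 * b)) := by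
    have h := T1.2.2
    have e : T - -(1 / 4) * (1 - 3 * a - 2 * b) = T + 1 / 4 * (1 - 3 * a - 2 * b) := by ring
    rwa [e] at h
  have v2 : I p 2 (f0 - 4 * ((X + Y) * (1 / 3)) - 4 * Z + T * (f0 - (X + Y) * (1 / 3) - 3 * Z + W) -
      3 / 4 * C4 * (1 - 4 * a - 4 * b)) := by
    have h := V2.2.2
    have e : f0 + (x * -(4 * ((p : ℚ) / 3)) + y * -(4 * ((p : ℚ) / 3)) + z * -(4 * (p : ℚ)) + w * 0) +
      T * (f0 + (x * -((p : ℚ) / 3) + y * -((p : ℚ) / 3) + z * -(3 * (p : ℚ)) + w * (p : ℚ))) -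
      3 / 4 * C4 * (1 - 4 * a - 4 * b) = f0 - 4 * ((X + Y) * (1 / 3)) - 4 * Z +
      T * (f0 - (X + Y) * (1 / 3) - 3 * Z + W) - 3 / 4 * C4 * (1 - 4 * a - 4 * b) := by
      rw [hX, hY, hZ, hW]; ring
    rwa [e] at h
  have mT := T1.1
  have d0 := F0.2.2
  have I3a2b : I p 1 (3 * a + 2 * b) := (Ia.mulL u3.2.1).add (Ib.mulL u2.2.1)
  have r2 : I p 2 (Z - C4 * b) := by
    have key : Z - C4 * b = 4 * (f0 - 4 * ((X + Y) * (1 / 3)) - 4 * Z +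
        T * (f0 - (X + Y) * (1 / 3) - 3 * Z + W) - 3 / 4 * C4 * (1 - 4 * a - 4 * b)) +
        (3 * a + 2 * b) * (C4 * (a + b) + Z) -
        4 * ((f0 - C4) - 4 * ((X + Y) * (1 / 3) + Z - C4 * (a + b))) -
        4 * ((C4 * (1 - a - b) - Z) * (T + 1 / 4 * (1 - 3 * a - 2 * b))) -
        4 * (T * ((f0 - C4) - ((X + Y) * (1 / 3) + Z - C4 * (a + b)) - (Z - W))) := by ring
    rw [key]
    have m4 := u4.2.1
    have mm : C4 * (1 - a - b) - Z ∈ Zp p :=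
      sub_mem (mul_mem mC (sub_mem (sub_mem (one_mem _) Ia.mem) Ib.mem)) IZ.mem
    exact ((((v2.mulL m4).add (I3a2b.mul (((Ia.add Ib).mulL mC).add IZ))).sub
      ((d0.sub (r1.mulL m4)).mulL m4)).sub ((t1.mulL mm).mulL m4)).sub
      ((((d0.sub r1).sub W1).mulL mT).mulL m4)
  -- the multiplier of the second part
  have H4 : EQ p 2 (p * H (4 * j)) (-3 * b) := by
    refine EQ.trans ⟨mul_mem p_mem (H_mem (by omega)), E2.1, ?_⟩ E2
    rw [← mul_sub]; exact (I_p (p := p)).mul (H42 (p := p) hpj)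
  have mult : ∀ m : ℕ, m < p → EQ p 2 (p * H m) (-3 * b) →
      I p 2 (((p + m).choose p : ℚ) * ((2 * p + m).choose p : ℚ) * (-(9 / 8)) ^ p +
        9 / 4 * (1 - (3 * a + 2 * b))) := by
    intro m hm hH
    obtain ⟨b1, b2⟩ := hB p m hm
    have I3b : I p 1 (-3 * b) := Ib.mulL (neg_mem u3.2.1)
    have g1 : EQ p 2 (1 + p * H m) (1 + -3 * b) := (EQ.refl (one_mem _)).add hH
    have g2 := ((b1.trans g1).mul (b2.trans ((EQ.refl (k := 2) u2.2.1).mul g1)))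
    have g3 := (EQ.refl (k := 2) u2.2.1).mul (mul_small I3b I3b)
    have e3 : (1 + -3 * b) * (2 * (1 + -3 * b)) = 2 * ((1 + -3 * b) * (1 + -3 * b)) := by ring
    rw [e3] at g2
    have g4 := (g2.trans g3).mul (pow98 hpj ha hb Ia Ib)
    have I6b : I p 1 (-3 * b + -3 * b) := I3b.add I3b
    have Iba : I p 1 (4 * b - 3 * a) := (Ib.mulL u4.2.1).sub (Ia.mulL u3.2.1)
    have h94 : (9 / 4 : ℚ) ∈ Zp p := by
      have : (9 / 4 : ℚ) = 3 * 3 * (2⁻¹ * 2⁻¹) := by norm_num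
      rw [this]; exact mul_mem (mul_mem u3.2.1 u3.2.1) (mul_mem u2.2.2 u2.2.2)
    have g5 := (EQ.refl (k := 2) h94).mul (mul_small I6b Iba)
    have e5 : 2 * (1 + -3 * b + -3 * b) * (9 / 8 * (1 + (4 * b - 3 * a))) =
      9 / 4 * ((1 + (-3 * b + -3 * b)) * (1 + (4 * b - 3 * a))) := by ring
    rw [e5] at g4
    have g6 := (g4.trans g5).2.2
    have hodd : Odd p := ⟨3 * j, by omega⟩
    have e6 : ((p + m).choose p : ℚ) * ((2 * p + m).choose p : ℚ) * (-(9 / 8)) ^ p +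
        9 / 4 * (1 - (3 * a + 2 * b)) = -(((p + m).choose p : ℚ) * ((2 * p + m).choose p : ℚ) * (9 / 8) ^ p -
        9 / 4 * (1 + (-3 * b + -3 * b) + (4 * b - 3 * a))) := by
      rw [hodd.neg_pow]; ring
    rw [e6]
    exact g6.neg
  have s1 := mult (2 * j) (by omega) E2
  have s2 := mult (4 * j) (by omega) H4
  -- the exact values
  obtain ⟨-, -, p1, p2⟩ := hS p j hj hpj
  have q1 : -(5 / 4) * QQ (2 / 3 + -(2 * ((p : ℚ) / 3))) (5 / 6 - -(2 * ((p : ℚ) / 3))) p = PL (8 * j + 1) := by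
    have := (hQ (4 * j)).2
    rw [show 2 * (4 * j) + 1 = 8 * j + 1 by ring] at this
    rw [this, ← QQ_trunc (n := p) (by omega)]
    congr 2
    · rw [hpq]; push_cast; ring
    · rw [hpq]; push_cast; ring
  have q2 : -(5 / 4) * QQ (2 / 3 + 5 * ((p : ℚ) / 6)) (5 / 6 - 5 * ((p : ℚ) / 6)) p = PL (10 * j + 1) := by
    have := (hQ (5 * j)).2
    rw [show 2 * (5 * j) + 1 = 10 * j + 1 by ring] at this
    rw [this, QQ_symm, ← QQ_trunc (n := p) (by omega)]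
    congr 2
    · rw [hpq]; push_cast; ring
    · rw [hpq]; push_cast; ring
  have h1 := Lin.two (lin_QQ hpj m23 m56) (u := -(2 * ((p : ℚ) / 3))) (v := 5 * ((p : ℚ) / 6)) (s := 5 / 9)
    (t := 4 / 9) (hd3.mulL u2.2.1).neg (hd6.mulL m5) m59 m49 (by norm_num) (by ring)
  beta_reduce at h1
  rw [add_zero, sub_zero] at h1
  have m54 : (-(5 / 4) : ℚ) ∈ Zp p := by
    have : (-(5 / 4) : ℚ) = -(5 * 4⁻¹) := by norm_num
    rw [this]; exact neg_mem (mul_mem m5 u4.2.2)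
  have h2 := (EQ.refl (k := 2) m54).mul h1
  have e2 : -(5 / 4) * (5 / 9 * QQ (2 / 3 + -(2 * ((p : ℚ) / 3))) (5 / 6 - -(2 * ((p : ℚ) / 3))) p +
      4 / 9 * QQ (2 / 3 + 5 * ((p : ℚ) / 6)) (5 / 6 - 5 * ((p : ℚ) / 6)) p) =
      5 / 9 * PL (8 * j + 1) + 4 / 9 * PL (10 * j + 1) := by
    rw [← q1, ← q2]; ring
  rw [e2, p1, p2] at h2
  rw [show (8 * j + 1 + p) = 2 * p + 2 * j by omega, show 8 * j + 1 = p + 2 * j by omega,
    show (10 * j + 1 + p) = 2 * p + 4 * j by omega, show 10 * j + 1 = p + 4 * j by omega] at h2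
  obtain ⟨G1, hG1⟩ : ∃ G : ℚ, G = ((p + 2 * j).choose p : ℚ) * ((2 * p + 2 * j).choose p : ℚ) * (-(9 / 8)) ^ p :=
    ⟨_, rfl⟩
  obtain ⟨G2, hG2⟩ : ∃ G : ℚ, G = ((p + 4 * j).choose p : ℚ) * ((2 * p + 4 * j).choose p : ℚ) * (-(9 / 8)) ^ p :=
    ⟨_, rfl⟩
  rw [← hG1, ← hG2] at h2
  rw [← hG1] at s1
  rw [← hG2] at s2
  have h98 : (9 / 8 : ℚ) ∈ Zp p := by
    have : (9 / 8 : ℚ) = 3 * 3 * (2⁻¹ * 2⁻¹ * 2⁻¹) := by norm_num
    rw [this]; exact mul_mem (mul_mem u3.2.1 u3.2.1) (mul_mem (mul_mem u2.2.2 u2.2.2) u2.2.2)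
  have mG1 : G1 ∈ Zp p := by
    rw [hG1]; exact mul_mem (mul_mem (nat_mem _) (nat_mem _)) (pow_mem (neg_mem h98) _)
  have mG2 : G2 ∈ Zp p := by
    rw [hG2]; exact mul_mem (mul_mem (nat_mem _) (nat_mem _)) (pow_mem (neg_mem h98) _)
  have k1 := hl _ _ _ _ (hd3.mulL u4.2.1).neg (hd3.mulL u4.2.1) I.zero I.zero
  have k2 := hl _ _ _ _ hd3.neg (hd3.mulL m7) hP hP
  have k3 := hl _ _ _ _ (hd3.mulL m5) (hd3.mulL m5).neg I.zero I.zero
  have k4 := hl _ _ _ _ (hd3.mulL m8) (hd3.mulL u2.2.1).neg hP hP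
  have k5 := ((EQ.refl (k := 2) m59).mul (k1.add ((EQ.refl (k := 2) mG1).mul k2))).add
    ((EQ.refl (k := 2) m49).mul (k3.add ((EQ.refl (k := 2) mG2).mul k4)))
  have h3 := h2.trans k5
  have mC54 : -(5 / 4) * C4 ∈ Zp p := mul_mem m54 mC
  have h94 : (9 / 4 : ℚ) ∈ Zp p := by
    have : (9 / 4 : ℚ) = 3 * 3 * (2⁻¹ * 2⁻¹) := by norm_num
    rw [this]; exact mul_mem (mul_mem u3.2.1 u3.2.1) (mul_mem u2.2.2 u2.2.2)
  have fin : EQ p 2 (-(5 / 4) * QQ (2 / 3) (5 / 6) p) (-(5 / 4) * C4) := by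
    refine h3.trans ⟨h3.2.1, mC54, ?_⟩
    have key : 5 / 9 * (f0 + (x * -(4 * ((p : ℚ) / 3)) + y * (4 * ((p : ℚ) / 3)) + z * 0 + w * 0) +
        G1 * (f0 + (x * -((p : ℚ) / 3) + y * (7 * ((p : ℚ) / 3)) + z * (p : ℚ) + w * (p : ℚ)))) +
        4 / 9 * (f0 + (x * (5 * ((p : ℚ) / 3)) + y * -(5 * ((p : ℚ) / 3)) + z * 0 + w * 0) +
        G2 * (f0 + (x * (8 * ((p : ℚ) / 3)) + y * -(2 * ((p : ℚ) / 3)) + z * (p : ℚ) + w * (p : ℚ)))) -
        -(5 / 4) * C4 = (f0 - C4) + 9 / 4 * (C4 * ((3 * a + 2 * b) * (3 * a + 2 * b))) +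
        (5 / 9 * (f0 + X * -(1 / 3) + Y * (7 / 3) + Z + W)) * (G1 + 9 / 4 * (1 - (3 * a + 2 * b))) +
        (4 / 9 * (f0 + X * (8 / 3) + Y * -(2 / 3) + Z + W)) * (G2 + 9 / 4 * (1 - (3 * a + 2 * b))) +
        -(9 / 4 * (1 - (3 * a + 2 * b))) * ((f0 - C4) - (Z - C4 * b) +
          3 * ((X + Y) * (1 / 3) + Z - C4 * (a + b)) - (Z - W)) := by
      rw [hX, hY, hZ, hW]; ring
    rw [key]
    have mf0 := F0.1
    have n1 : 5 / 9 * (f0 + X * -(1 / 3) + Y * (7 / 3) + Z + W) ∈ Zp p := by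
      have m73 : (7 / 3 : ℚ) ∈ Zp p := by rw [div_eq_mul_inv]; exact mul_mem m7 u3.2.2
      exact mul_mem m59 (add_mem (add_mem (add_mem (add_mem mf0 (mul_mem IX.mem (neg_mem m13)))
        (mul_mem IY.mem m73)) IZ.mem) IW.mem)
    have n2 : 4 / 9 * (f0 + X * (8 / 3) + Y * -(2 / 3) + Z + W) ∈ Zp p := by
      have m83 : (8 / 3 : ℚ) ∈ Zp p := by rw [div_eq_mul_inv]; exact mul_mem m8 u3.2.2
      exact mul_mem m49 (add_mem (add_mem (add_mem (add_mem mf0 (mul_mem IX.mem m83))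
        (mul_mem IY.mem (neg_mem m23))) IZ.mem) IW.mem)
    have n3 : -(9 / 4 * (1 - (3 * a + 2 * b))) ∈ Zp p :=
      neg_mem (mul_mem h94 (sub_mem (one_mem _) I3a2b.mem))
    exact (((d0.add (((I3a2b.mul I3a2b).mulL mC).mulL h94)).add (s1.mulL n1)).add (s2.mulL n2)).add
      ((((d0.sub r2).add (r1.mulL u3.2.1)).sub W1).mulL n3)
  have u5 : U p (5 : ℚ) := by
    have := U_nat (p := p) (k := 5) (by norm_num) (by omega)
    exact_mod_cast this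
  have u54 : U p (-(5 / 4) : ℚ) := U_neg (u5.div u4)
  rw [← hC4]
  have hz0 : QQ (2 / 3) (5 / 6) p ∈ Zp p := h1.1
  exact EQ_cancel u54 hz0 mC fin

end Pool.Agent.R488.Sq
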