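import Mathlib
import Pool.Agent.R488.Sq.Defs
import Pool.Agent.R488.Cub.Facts
import Pool.Agent.R488.Cub.Harm

set_option autoImplicit false

/-! Congruences `x = y (1+s)` modulo `p^2` with `y` a unit and `s` divisible by `p`. -/

namespace Pool.Agent.R488.Sq

open Finset Pool.Agent.R439.PL Pool.Agent.R439.PL.S4 Pool.Agent.R488.Tri Pool.Agent.R488.Cub Pool.Agent.R488.Nin

variable {p j : ℕ} [hp : Fact p.Prime]

/-- `x = y (1+s)` modulo `p^2` -/
def WW (p : ℕ) [Fact p.Prime] (x y s : ℚ) : Prop := U p y ∧ I p 1 s ∧ EQ p 2 x (y * (1 + s))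

variable {x y z s t x' y' s' : ℚ}

theorem WW.exact (hy : U p y) (hs : I p 1 s) : WW p (y * (1 + s)) y s :=
  ⟨hy, hs, EQ.refl (mul_mem hy.2.1 (U_small hs).2.1)⟩

theorem WW.refl (hy : U p y) : WW p y y 0 := by
  have := WW.exact hy (I.zero (p := p) (k := 1))
  rwa [add_zero, mul_one] at this

theorem WW.unit (h : WW p x y s) : U p x :=
  h.2.2.symm.unit (by norm_num) (h.1.mul (U_small h.2.1))

theorem WW.mul (h : WW p x y s) (h' : WW p x' y' s') : WW p (x * x') (y * y') (s + s') := by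
  refine ⟨h.1.mul h'.1, h.2.1.add h'.2.1, ?_⟩
  refine (h.2.2.mul h'.2.2).trans ?_
  have e1 : y * (1 + s) * (y' * (1 + s')) = (y * y') * ((1 + s) * (1 + s')) := by ring
  rw [e1, ← add_assoc]
  exact (EQ.refl (h.1.mul h'.1).2.1).mul (mul_small h.2.1 h'.2.1)

theorem WW.inv (h : WW p x y s) : WW p x⁻¹ y⁻¹ (-s) := by
  refine ⟨h.1.inv, h.2.1.neg, ?_⟩
  have h1 := h.2.2.inv (by norm_num) h.unit
  refine h1.trans ?_
  rw [mul_inv]
  exact (EQ.refl h.1.inv.2.1).mul (by rw [← sub_eq_add_neg]; exact inv_small h.2.1)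

theorem WW.div (h : WW p x y s) (h' : WW p x' y' s') : WW p (x / x') (y / y') (s - s') := by
  rw [div_eq_mul_inv, div_eq_mul_inv, sub_eq_add_neg]
  exact h.mul h'.inv

theorem WW.trans (h : WW p x y s) (h' : WW p y z t) : WW p x z (s + t) := by
  refine ⟨h'.1, h.2.1.add h'.2.1, ?_⟩
  refine h.2.2.trans ?_
  have h1 := h'.2.2.mul (EQ.refl (k := 2) (U_small h.2.1).2.1)
  refine h1.trans ?_
  have e1 : z * (1 + t) * (1 + s) = z * ((1 + s) * (1 + t)) := by ring
  rw [e1, ← add_assoc]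
  exact (EQ.refl h'.1.2.1).mul (mul_small h.2.1 h'.2.1)

theorem WW.symm (h : WW p x y s) : WW p y x (-s) := by
  have h1 := (WW.refl h.unit)
  have h2 := (WW.refl h.1)
  refine ⟨h.unit, h.2.1.neg, ?_⟩
  have h3 := h.2.2.symm.mul (EQ.refl (k := 2) (U_small h.2.1.neg).2.1)
  refine EQ.trans ?_ h3
  have h4 := (mul_small (p := p) h.2.1 h.2.1.neg).symm
  have e1 : 1 + s + -s = 1 := by ring
  rw [e1] at h4
  have h5 := (EQ.refl (k := 2) h.1.2.1).mul h4
  rw [mul_one, ← mul_assoc] at h5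
  exact h5

theorem WW.congr (h : WW p x y s) (h' : EQ p 2 s t) : WW p x y t := by
  have ht : I p 1 t := by
    have e : t = s - (s - t) := by ring
    rw [e]; exact h.2.1.sub (h'.2.2.mono (by norm_num))
  exact ⟨h.1, ht, h.2.2.trans ((EQ.refl h.1.2.1).mul ((EQ.refl (one_mem _)).add h'))⟩

theorem WW.pow (h : WW p x y s) (n : ℕ) : WW p (x ^ n) (y ^ n) (n * s) := by
  induction n with
  | zero => simpa using WW.refl (U.one (p := p))
  | succ n ih =>
    have := ih.mul h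
    rw [pow_succ, pow_succ]
    have e : ((n + 1 : ℕ) : ℚ) * s = n * s + s := by push_cast; ring
    rw [e]
    exact this

/-- `∏_{i<m} (1+i+δ) = m! (1 + δ H m)` -/
theorem facH {m : ℕ} (hm : m < p) {δ : ℚ} (hδ : I p 1 δ) :
    WW p (∏ i ∈ range m, (1 + i + δ : ℚ)) (m.factorial : ℚ) (δ * H m) := by
  refine ⟨U_fac hm, hδ.mulR (H_mem hm), ?_⟩
  have h := prodH (p := p) (a := m) (b := m) (le_refl _) hm hδ.neg
  rw [prod_choose _ _ (le_refl _), Nat.choose_self, Nat.sub_self] at h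
  have hH0 : H 0 = 0 := by simp [H]
  rw [hH0, sub_zero, Nat.cast_one, one_mul] at h
  have e1 : ∏ i ∈ range m, ((m : ℚ) - i - -δ) = ∏ i ∈ range m, (1 + i + δ : ℚ) := by
    rw [← prod_range_reflect (fun i => (1 + i + δ : ℚ))]
    refine prod_congr rfl fun i hi => ?_
    have hi' := mem_range.1 hi
    rw [Nat.sub_sub, Nat.cast_sub (show 1 + i ≤ m by omega)]
    push_cast
    ring
  have e2 : (1 : ℚ) - -δ * H m = 1 + δ * H m := by ring
  rwa [e1, e2] at h

/-- `H (p-1)` is divisible by `p` -/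
theorem Hp1 (hpj : p = 6 * j + 1) : I p 1 (H (6 * j)) := by
  have hpq : (p : ℚ) = 6 * j + 1 := by exact_mod_cast hpj
  have h2 : H (6 * j) = ∑ i ∈ range (6 * j), ((6 * j : ℕ) - (i : ℚ))⁻¹ := by
    rw [H_sub _ _ (le_refl _), Nat.sub_self]
    simp [H]
  have h1 : H (6 * j) = ∑ i ∈ range (6 * j), ((i : ℚ) + 1)⁻¹ := by
    unfold H
    exact sum_congr rfl fun i _ => one_div _
  have h3 : 2 * H (6 * j) = ∑ i ∈ range (6 * j), (p : ℚ) * (((i : ℚ) + 1)⁻¹ * ((6 * j : ℕ) - (i : ℚ))⁻¹) := by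
    have : 2 * H (6 * j) = H (6 * j) + H (6 * j) := by ring
    rw [this]
    conv_lhs => arg 1; rw [h1]
    conv_lhs => arg 2; rw [h2]
    rw [← sum_add_distrib]
    refine sum_congr rfl fun i hi => ?_
    have hi' := mem_range.1 hi
    have a1 : (((6 * j : ℕ) : ℚ) - (i : ℚ)) ≠ 0 := by
      have := Nat.cast_sub (R := ℚ) (show i ≤ 6 * j by omega)
      rw [← this]
      exact_mod_cast (show 6 * j - i ≠ 0 by omega)
    have a2 : (i : ℚ) + 1 ≠ 0 := by positivity
    rw [hpq]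
    push_cast at a1 ⊢
    field_simp
    ring
  have h4 : I p 1 (2 * H (6 * j)) := by
    rw [h3]
    refine I.sum fun i hi => ?_
    have hi' := mem_range.1 hi
    have u1 := U_nat (p := p) (k := 6 * j - i) (by omega) (by omega)
    have u2 := U_nat (p := p) (k := i + 1) (by omega) (by omega)
    rw [Nat.cast_sub (by omega)] at u1
    have e : ((i + 1 : ℕ) : ℚ) = (i : ℚ) + 1 := by push_cast; ring
    rw [e] at u2
    exact (I_p (p := p)).mulR (mul_mem u2.2.2 u1.2.2)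
  exact (U2 hpj).cancel h4

end Pool.Agent.R488.Sq
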