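import Mathlib
import Pool.Agent.R488.Sq.W

set_option autoImplicit false

/-! SQ-R -/

namespace Pool.Agent.R488.Sq

open Finset Pool.Agent.R439.PL Pool.Agent.R439.PL.S4 Pool.Agent.R488.Tri Pool.Agent.R488.Cub Pool.Agent.R488.Nin

theorem sqR : StmtR := by
  intro p j hp hpj a b ha hb
  have hpq : (p : ℚ) = 6 * j + 1 := by exact_mod_cast hpj
  have hj := j_pos hpj
  have u2 := U2 hpj
  have u3 := U3 hpj
  have u4 := U4 hpj
  obtain ⟨a', b', C4, C3, C2, hC4, hC3, hC2, ha', hb', Ia, Ib, uC4, mC3, mC2, E3, E2, E1, e1, e6⟩ := facts harm hpj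
  rw [← ha] at ha'
  rw [← hb] at hb'
  subst ha' hb'
  rw [← hC4]
  have uC3 : U p C3 := by rw [hC3]; exact C_unit (by omega) (by omega)
  have m12 : (1 / 2 : ℚ) ∈ Zp p := by rw [one_div]; exact u2.2.2
  have m13 : (1 / 3 : ℚ) ∈ Zp p := by rw [one_div]; exact u3.2.2
  have hd2 : I p 1 ((p : ℚ) / 2) := by rw [div_eq_mul_inv]; exact (I_p (p := p)).mulR u2.2.2
  have hd3 : I p 1 ((p : ℚ) / 3) := by rw [div_eq_mul_inv]; exact (I_p (p := p)).mulR u3.2.2
  have um1 : U p ((-1 : ℚ) ^ j) := by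
    refine U.pow ⟨by norm_num, neg_mem (one_mem _), ?_⟩ j
    have : (-1 : ℚ)⁻¹ = -1 := by norm_num
    rw [this]; exact neg_mem (one_mem _)
  -- w1
  have w1 : WW p (∏ i ∈ range (3 * j), (1 / 2 + i : ℚ)) ((-1) ^ j * (3 * j).factorial) a' := by
    have h := prodH (p := p) (a := 3 * j) (b := 3 * j) (le_refl _) (by omega) hd2
    rw [prod_choose _ _ (le_refl _), Nat.choose_self, Nat.sub_self] at h
    have hH0 : H 0 = 0 := by simp [H]
    rw [hH0, sub_zero, Nat.cast_one, one_mul] at h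
    have e : ∏ i ∈ range (3 * j), (((3 * j : ℕ) : ℚ) - i - p / 2) = (-1) ^ j * ∏ i ∈ range (3 * j), (1 / 2 + i : ℚ) := by
      have : ∏ i ∈ range (3 * j), (((3 * j : ℕ) : ℚ) - i - p / 2) = ∏ i ∈ range (3 * j), (-1 * (1 / 2 + i : ℚ)) := by
        refine prod_congr rfl fun i _ => ?_
        rw [hpq]; push_cast; ring
      have e0 : (-1 : ℚ) ^ (3 * j) = (-1) ^ j := by rw [pow_mul]; norm_num
      rw [this, prod_mul_distrib, prod_const, card_range, e0]
    rw [e] at h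
    have w : WW p ((-1) ^ j * ∏ i ∈ range (3 * j), (1 / 2 + i : ℚ)) ((3 * j).factorial) (-(p / 2 * H (3 * j))) :=
      ⟨U_fac (by omega), (hd2.mulR (H_mem (by omega))).neg, by rw [← sub_eq_add_neg]; exact h⟩
    have w' := (WW.refl um1).mul w
    have s1 := mone_sq' j
    have x1 : (-1 : ℚ) ^ j * ((-1) ^ j * ∏ i ∈ range (3 * j), (1 / 2 + i : ℚ)) = ∏ i ∈ range (3 * j), (1 / 2 + i : ℚ) := by
      rw [← mul_assoc, s1, one_mul]
    rw [x1, zero_add] at w'
    refine w'.congr ?_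
    have h' := (EQ.refl (k := 2) (neg_mem m12)).mul E3
    have x2 : -(1 / 2) * (p * H (3 * j)) = -(p / 2 * H (3 * j)) := by ring
    have x3 : -(1 / 2) * (-2 * a') = a' := by ring
    rwa [x2, x3] at h'
  -- w2
  have w2 : WW p (∏ i ∈ range (5 * j), (1 + i + p / 2 : ℚ)) ((5 * j).factorial) (-a' + -(3 / 2) * b') := by
    refine (facH (p := p) (m := 5 * j) (by omega) hd2).congr ?_
    have E5 : EQ p 2 (p * H (5 * j)) (-2 * a' - 3 * b') := by
      refine EQ.trans ⟨mul_mem p_mem (H_mem (by omega)), E1.1, ?_⟩ E1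
      rw [← mul_sub]; exact (I_p (p := p)).mul (H51 hpj)
    have h' := (EQ.refl (k := 2) m12).mul E5
    have x2 : (1 / 2) * (p * H (5 * j)) = (p / 2 * H (5 * j)) := by ring
    have x3 : (1 / 2) * (-2 * a' - 3 * b') = -a' + -(3 / 2) * b' := by ring
    rwa [x2, x3] at h'
  -- w3
  have w3 : WW p (∏ i ∈ range (2 * j), (1 / 3 + i : ℚ)) ((2 * j).factorial) b' :=
    ⟨U_fac (by omega), Ib, D1 hpj E2⟩
  -- w4
  have w4 : WW p (∏ i ∈ range (6 * j), (1 + i + p / 3 : ℚ)) ((6 * j).factorial) 0 := by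
    refine (facH (p := p) (m := 6 * j) (by omega) hd3).congr ?_
    exact EQ.of_I (hd3.mul (Hp1 hpj))
  -- w5
  have w5 : WW p ((6 * j).choose j : ℚ) ((-1) ^ j) (2 * a' + 3 * b') := by
    have y := choose_pm2 (p := p) (k := j) (by omega)
    rw [show p - 1 = 6 * j by omega] at y
    have w : WW p ((6 * j).choose j : ℚ) ((-1) ^ j) (-(p * H j)) :=
      ⟨um1, ((I_p (p := p)).mulR (H_mem (by omega))).neg, by rw [← sub_eq_add_neg]; exact y⟩
    refine w.congr ?_
    have h' := E1.neg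
    have x : -(-2 * a' - 3 * b') = 2 * a' + 3 * b' := by ring
    rwa [x] at h'
  -- w6
  have u16 : U p ((16 : ℚ) ^ j) := by
    have : (16 : ℚ) = 4 * 4 := by norm_num
    rw [this]; exact (u4.mul u4).pow j
  have I32b : I p 1 (-(3 / 2) * b') := by
    have : -(3 / 2) * b' = (-(3 * 2⁻¹)) * b' := by ring
    rw [this]; exact Ib.mulL (neg_mem (mul_mem u3.2.1 u2.2.2))
  have w6 : WW p C4 (16 ^ j * C3) (-(3 / 2) * b') := ⟨u16.mul uC3, I32b, e1⟩
  -- 64^j
  have w7 : WW p ((64 : ℚ) ^ j) 1 a' := by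
    have := WW.exact (U.one (p := p)) Ia
    have e : (1 : ℚ) * (1 + a') = 64 ^ j := by rw [ha]; ring
    rwa [e] at this
  -- units
  have u34 : U p (3 / 4 : ℚ) := u3.div u4
  have w0 := WW.refl (p := p) (u34.mul (((u16.mul u16)).inv))
  have big := ((w0.mul (w1.mul w2)).div (w3.mul w4))
  -- second substitution
  have f1 : ((3 * j).factorial : ℚ) = C3 * j.factorial * (2 * j).factorial := by
    rw [hC3]
    have h1 := Nat.choose_mul_factorial_mul_factorial (show j ≤ 3 * j by omega)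
    rw [show 3 * j - j = 2 * j by omega] at h1
    exact_mod_cast h1.symm
  have f2 : ((6 * j).factorial : ℚ) = ((6 * j).choose j : ℚ) * j.factorial * (5 * j).factorial := by
    have h1 := Nat.choose_mul_factorial_mul_factorial (show j ≤ 6 * j by omega)
    rw [show 6 * j - j = 5 * j by omega] at h1
    exact_mod_cast h1.symm
  have n1 : (j.factorial : ℚ) ≠ 0 := by exact_mod_cast j.factorial_ne_zero
  have n2 : ((2 * j).factorial : ℚ) ≠ 0 := by exact_mod_cast (2 * j).factorial_ne_zero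
  have n5 : ((5 * j).factorial : ℚ) ≠ 0 := by exact_mod_cast (5 * j).factorial_ne_zero
  have nC := w5.unit.1
  have nm := um1.1
  have n16 := u16.1
  have second : WW p (3 / 4 * ((16 : ℚ) ^ j * 16 ^ j)⁻¹ * ((-1) ^ j * (3 * j).factorial * (5 * j).factorial) /
      ((2 * j).factorial * (6 * j).factorial)) (3 / 4 * C4)
      ((0 + 0 - (2 * a' + 3 * b')) + -(-(3 / 2) * b') - ((a' + a') + 0)) := by
    have g1 := ((WW.refl u34).mul (WW.refl um1)).div w5
    have g2 := g1.mul w6.symm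
    have g3 := g2.div ((w7.mul w7).mul (WW.refl (p := p) (U.one)))
    have x1 : 3 / 4 * (-1) ^ j / ((6 * j).choose j : ℚ) * ((16 : ℚ) ^ j * C3) / (64 ^ j * 64 ^ j * 1) =
        3 / 4 * ((16 : ℚ) ^ j * 16 ^ j)⁻¹ * ((-1) ^ j * (3 * j).factorial * (5 * j).factorial) /
      ((2 * j).factorial * (6 * j).factorial) := by
      rw [f1, f2]
      have e64 : (64 : ℚ) ^ j * 64 ^ j = 16 ^ j * 16 ^ j * 16 ^ j := by
        rw [← mul_pow, ← mul_pow, ← mul_pow]; norm_num
      rw [e64]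
      field_simp
    rw [x1] at g3
    have x2 : 3 / 4 * (-1) ^ j / (-1) ^ j * C4 / (1 * 1 * 1) = 3 / 4 * C4 := by
      field_simp
    rw [x2] at g3
    exact g3
  have big2 := (show WW p _ (3 / 4 * ((16 : ℚ) ^ j * 16 ^ j)⁻¹ * ((-1) ^ j * (3 * j).factorial * (5 * j).factorial) /
      ((2 * j).factorial * (6 * j).factorial)) _ from big).trans second
  -- the left side
  have hN : ∏ i ∈ range (8 * j + 1), (1 / 2 + i : ℚ) = (∏ i ∈ range (3 * j), (1 / 2 + i : ℚ)) * (p / 2) *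
      ∏ i ∈ range (5 * j), (1 + i + p / 2 : ℚ) := by
    rw [show 8 * j + 1 = (3 * j + 1) + 5 * j by omega, prod_range_add, prod_range_succ]
    congr 1
    · congr 1
      rw [hpq]; push_cast; ring
    · refine prod_congr rfl fun i _ => ?_
      rw [hpq]; push_cast; ring
  have hDD : ∏ i ∈ range (8 * j + 1), (1 / 3 + i : ℚ) = (∏ i ∈ range (2 * j), (1 / 3 + i : ℚ)) * (p / 3) *
      ∏ i ∈ range (6 * j), (1 + i + p / 3 : ℚ) := by
    rw [show 8 * j + 1 = (2 * j + 1) + 6 * j by omega, prod_range_add, prod_range_succ]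
    congr 1
    · congr 1
      rw [hpq]; push_cast; ring
    · refine prod_congr rfl fun i _ => ?_
      rw [hpq]; push_cast; ring
  have hl : (1 / 2 : ℚ) ^ (8 * j + 1) * ∏ i ∈ range (8 * j + 1), ((1 / 2 + i) / (1 / 3 + i) : ℚ) =
      3 / 4 * ((16 : ℚ) ^ j * 16 ^ j)⁻¹ * ((∏ i ∈ range (3 * j), (1 / 2 + i : ℚ)) * ∏ i ∈ range (5 * j), (1 + i + p / 2 : ℚ)) /
        ((∏ i ∈ range (2 * j), (1 / 3 + i : ℚ)) * ∏ i ∈ range (6 * j), (1 + i + p / 3 : ℚ)) := by
    rw [prod_div_distrib, hN, hDD]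
    have k1 := w3.unit.1
    have k2 := w4.unit.1
    have k3 : (p : ℚ) ≠ 0 := p_ne
    have e2 : (1 / 2 : ℚ) ^ (8 * j + 1) = 1 / 2 * ((16 : ℚ) ^ j * 16 ^ j)⁻¹ := by
      rw [pow_succ, pow_mul, ← mul_pow, ← inv_pow]
      norm_num
      ring
    rw [e2]
    generalize ∏ i ∈ range (3 * j), (1 / 2 + i : ℚ) = X1 at *
    generalize ∏ i ∈ range (5 * j), (1 + i + p / 2 : ℚ) = X2 at *
    generalize ∏ i ∈ range (2 * j), (1 / 3 + i : ℚ) = X3 at *
    generalize ∏ i ∈ range (6 * j), (1 + i + p / 3 : ℚ) = X4 at *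
    field_simp
    ring
  rw [hl]
  have fin := big2.2.2
  have xs : (0 + (a' + (-a' + -(3 / 2) * b')) - (b' + 0) +
      ((0 + 0 - (2 * a' + 3 * b')) + -(-(3 / 2) * b') - ((a' + a') + 0))) = -4 * a' - 4 * b' := by ring
  rw [xs] at fin
  have xt : 3 / 4 * C4 * (1 + (-4 * a' - 4 * b')) = 3 / 4 * C4 * (1 - 4 * a' - 4 * b') := by ring
  rw [xt] at fin
  exact fin

end Pool.Agent.R488.Sq
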