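import Pool.Agent.R488.Sq.Defs

set_option autoImplicit false

/-! SQ-S (helper164): splitting of the Legendre sums. -/

namespace Pool.Agent.R488.Sq

open Finset

namespace SS

def T (N k : ℕ) : ℚ := (9 / 8) ^ k * ∏ i ∈ range k,
  (((i : ℚ) - N) * ((N : ℚ) + 1 + i) * ((1 + (i : ℚ)) * (1 + (i : ℚ)))⁻¹)

theorem T_eq (N k : ℕ) : (N.choose k : ℚ) * ((N + k).choose k : ℚ) * (-(9 / 8)) ^ k = T N k := by
  induction k with
  | zero => simp [T]
  | succ k ih =>
    have a4 : (N.choose (k + 1) : ℚ) * ((k : ℚ) + 1) = (N.choose k : ℚ) * ((N : ℚ) - k) := by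
      rcases le_or_gt k N with h | h
      · have h5 : ((N.choose (k + 1) * (k + 1) : ℕ) : ℚ) = ((N.choose k * (N - k) : ℕ) : ℚ) := by
          rw [Nat.choose_succ_right_eq]
        push_cast [Nat.cast_sub h] at h5
        exact h5
      · rw [Nat.choose_eq_zero_of_lt h, Nat.choose_eq_zero_of_lt (by omega)]
        simp
    have a3 : ((N : ℚ) + k + 1) * ((N + k).choose k : ℚ) =
        ((N + (k + 1)).choose (k + 1) : ℚ) * ((k : ℚ) + 1) := by
      have := Nat.add_one_mul_choose_eq (N + k) k
      exact_mod_cast this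
    have hk : ((k : ℚ) + 1) ≠ 0 := by positivity
    have b4 : (N.choose (k + 1) : ℚ) = (N.choose k : ℚ) * ((N : ℚ) - k) / ((k : ℚ) + 1) := by
      field_simp
      linarith
    have b3 : ((N + (k + 1)).choose (k + 1) : ℚ) =
        ((N : ℚ) + k + 1) * ((N + k).choose k : ℚ) / ((k : ℚ) + 1) := by
      field_simp
      linarith
    have hT : T N (k + 1) = T N k * ((9 / 8) *
        (((k : ℚ) - N) * ((N : ℚ) + 1 + k) * ((1 + (k : ℚ)) * (1 + (k : ℚ)))⁻¹)) := by
      rw [T, T, prod_range_succ, pow_succ]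
      ring
    rw [hT, ← ih, b4, b3, pow_succ]
    have hk' : (1 + (k : ℚ)) ≠ 0 := by positivity
    field_simp
    ring

theorem T_zero {N k : ℕ} (h : N < k) : T N k = 0 := by
  rw [← T_eq, Nat.choose_eq_zero_of_lt h]
  simp

theorem PL_eq (N M : ℕ) (h : N + 1 ≤ M) : PL N = ∑ k ∈ range M, T N k := by
  rw [PL, sum_congr rfl fun k _ => T_eq N k]
  refine sum_subset (range_subset_range.2 h) fun k _ hk => T_zero ?_
  have := mt mem_range.2 hk
  omega

theorem T_shift (N p k : ℕ) : T N (p + k) = T N p * ((9 / 8) ^ k * ∏ i ∈ range k,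
    ((((p + i : ℕ) : ℚ) - N) * ((N : ℚ) + 1 + ((p + i : ℕ) : ℚ)) *
      ((1 + ((p + i : ℕ) : ℚ)) * (1 + ((p + i : ℕ) : ℚ)))⁻¹)) := by
  rw [T, T, prod_range_add, pow_add]
  ring

end SS

theorem sqS : StmtS := by
  intro p j hj hpj
  have hpq : (p : ℚ) = 6 * j + 1 := by exact_mod_cast hpj
  refine ⟨?_, ?_, ?_, ?_⟩
  · rw [SS.PL_eq (2 * j) p (by omega), ff]
    refine sum_congr rfl fun k _ => ?_
    rw [SS.T, tt]
    congr 1
    refine prod_congr rfl fun i _ => ?_
    rw [hpq]
    push_cast
    congr 1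
    · ring
    · congr 1
      ring
  · rw [SS.PL_eq (4 * j) p (by omega), ff]
    refine sum_congr rfl fun k _ => ?_
    rw [SS.T, tt]
    congr 1
    refine prod_congr rfl fun i _ => ?_
    rw [hpq]
    push_cast
    congr 1
    · ring
    · congr 1
      ring
  · rw [SS.PL_eq (8 * j + 1) (p + p) (by omega), sum_range_add, SS.T_eq, ff, ff, mul_sum]
    congr 1
    · refine sum_congr rfl fun k _ => ?_
      rw [SS.T, tt]
      congr 1
      refine prod_congr rfl fun i _ => ?_
      rw [hpq]
      push_cast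
      congr 1
      · ring
      · congr 1
        ring
    · refine sum_congr rfl fun k _ => ?_
      rw [SS.T_shift, tt]
      congr 2
      refine prod_congr rfl fun i _ => ?_
      push_cast
      rw [hpq]
      congr 1
      · ring
      · congr 1
        ring
  · rw [SS.PL_eq (10 * j + 1) (p + p) (by omega), sum_range_add, SS.T_eq, ff, ff, mul_sum]
    congr 1
    · refine sum_congr rfl fun k _ => ?_
      rw [SS.T, tt]
      congr 1
      refine prod_congr rfl fun i _ => ?_
      rw [hpq]
      push_cast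
      congr 1
      · ring
      · congr 1
        ring
    · refine sum_congr rfl fun k _ => ?_
      rw [SS.T_shift, tt]
      congr 2
      refine prod_congr rfl fun i _ => ?_
      push_cast
      rw [hpq]
      congr 1
      · ring
      · congr 1
        ring

end Pool.Agent.R488.Sq
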