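import Pool.Agent.R488.Sq.Defs

set_option autoImplicit false

/-! SQ-T (helper164): splitting of the strange sum. -/

namespace Pool.Agent.R488.Sq

open Finset Pool.Agent.R488.Nin

namespace TT

theorem fac (a b c d : ℚ) : -(9 / 8) * a * b / (c * d) = (9 / 8) * ((-a) * (-b) * ((-c) * d)⁻¹) := by
  rw [neg_mul c d, inv_neg, div_eq_mul_inv]
  ring

theorem FA_prod (n k : ℕ) : FA n k = (9 / 8) ^ k * ∏ i ∈ range k,
    ((-((n : ℚ) - i)) * (-((n : ℚ) - 1 / 3 - i)) * ((-(3 * (n : ℚ) - i)) * (1 + (i : ℚ)))⁻¹) := by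
  have h9 : (9 / 8 : ℚ) ^ k = ∏ i ∈ range k, (9 / 8 : ℚ) := by rw [prod_const, card_range]
  rw [FA, h9, ← prod_mul_distrib]
  exact prod_congr rfl fun i _ => fac _ _ _ _

theorem FA_zero' {n k : ℕ} (h : n < k) : FA n k = 0 := by
  rw [FA]
  refine prod_eq_zero (i := n) (mem_range.2 h) ?_
  rw [sub_self]; simp

theorem FA_shift (n p k : ℕ) : FA n (p + k) = FA n p * ((9 / 8) ^ k * ∏ i ∈ range k,
    ((-((n : ℚ) - ((p + i : ℕ) : ℚ))) * (-((n : ℚ) - 1 / 3 - ((p + i : ℕ) : ℚ))) *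
      ((-(3 * (n : ℚ) - ((p + i : ℕ) : ℚ))) * (1 + ((p + i : ℕ) : ℚ)))⁻¹)) := by
  rw [FA_prod, FA_prod, prod_range_add, pow_add]
  ring

end TT

theorem sqT : StmtT := by
  intro p j hj hpj
  have hpq : (p : ℚ) = 6 * j + 1 := by exact_mod_cast hpj
  have h1 : ∑ k ∈ range (8 * j + 2), FA (8 * j + 1) k =
      ∑ k ∈ range (p + p), FA (8 * j + 1) k := by
    refine sum_subset (range_subset_range.2 (by omega)) fun k _ hk => TT.FA_zero' ?_
    have := mt mem_range.2 hk
    omega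
  rw [h1, sum_range_add, ff, ff, mul_sum]
  congr 1
  · refine sum_congr rfl fun k _ => ?_
    rw [TT.FA_prod, tt]
    congr 1
    refine prod_congr rfl fun i _ => ?_
    rw [hpq]
    push_cast
    congr 1
    · ring
    · congr 1
      ring
  · refine sum_congr rfl fun k _ => ?_
    rw [TT.FA_shift, tt]
    congr 2
    refine prod_congr rfl fun i _ => ?_
    push_cast
    rw [hpq]
    congr 1
    · ring
    · congr 1
      ring

end Pool.Agent.R488.Sq
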