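import Mathlib
import Pool.Agent.R488.Sq.W

set_option autoImplicit false

/-! SQ-TAU -/

namespace Pool.Agent.R488.Sq

open Finset Pool.Agent.R439.PL Pool.Agent.R439.PL.S4 Pool.Agent.R488.Tri Pool.Agent.R488.Cub Pool.Agent.R488.Nin

theorem sqTau (hB : StmtB) : StmtTau := by
  intro p j hp hpj a b ha hb
  have hpq : (p : ℚ) = 6 * j + 1 := by exact_mod_cast hpj
  have hj := j_pos hpj
  have u2 := U2 hpj
  have u3 := U3 hpj
  have u4 := U4 hpj
  obtain ⟨a', b', C4, C3, C2, hC4, hC3, hC2, ha', hb', Ia, Ib, uC4, mC3, mC2, E3, E2, E1, e1, e6⟩ := facts harm hpj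
  rw [← ha] at ha'
  rw [← hb] at hb'
  subst ha' hb'
  have m23 : (2 / 3 : ℚ) ∈ Zp p := by rw [div_eq_mul_inv]; exact mul_mem u2.2.1 u3.2.2
  have hd23 : I p 1 (2 * (p : ℚ) / 3) := by
    have : 2 * (p : ℚ) / 3 = 2 / 3 * p := by ring
    rw [this]; exact (I_p (p := p)).mulL m23
  have hd3p : I p 1 (3 * (p : ℚ)) := (I_p (p := p)).mulL u3.2.1
  -- the binomial coefficient
  have w1 : WW p ((p + 2 * j).choose p : ℚ) 1 (-3 * b') := by
    have h := (hB p (2 * j) (by omega)).1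
    have w : WW p ((p + 2 * j).choose p : ℚ) 1 (p * H (2 * j)) :=
      ⟨U.one, (I_p (p := p)).mulR (H_mem (by omega)), by rw [one_mul]; exact h⟩
    exact w.congr E2
  -- the denominators
  have w2 : WW p (∏ i ∈ range (6 * j), (1 + i + 3 * p : ℚ)) ((6 * j).factorial) 0 := by
    refine (facH (p := p) (m := 6 * j) (by omega) hd3p).congr ?_
    exact EQ.of_I (hd3p.mul (Hp1 hpj))
  -- X
  have w3 : WW p (∏ i ∈ range (4 * j), (1 + i + 2 * p / 3 : ℚ)) ((4 * j).factorial) (-2 * b') := by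
    refine (facH (p := p) (m := 4 * j) (by omega) hd23).congr ?_
    have E4 : EQ p 2 (p * H (4 * j)) (-3 * b') := by
      refine EQ.trans ⟨mul_mem p_mem (H_mem (by omega)), E2.1, ?_⟩ E2
      rw [← mul_sub]; exact (I_p (p := p)).mul (H42 hpj)
    have h' := (EQ.refl (k := 2) m23).mul E4
    have x2 : (2 / 3) * (p * H (4 * j)) = (2 * p / 3 * H (4 * j)) := by ring
    have x3 : (2 / 3) * (-3 * b') = -2 * b' := by ring
    rwa [x2, x3] at h'
  -- Y
  have w4 : WW p (∏ i ∈ range (2 * j), (1 + i + -(2 * p / 3) : ℚ)) ((2 * j).factorial) (2 * b') := by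
    refine (facH (p := p) (m := 2 * j) (by omega) hd23.neg).congr ?_
    have h' := (EQ.refl (k := 2) (neg_mem m23)).mul E2
    have x2 : -(2 / 3) * (p * H (2 * j)) = (-(2 * p / 3) * H (2 * j)) := by ring
    have x3 : -(2 / 3) * (-3 * b') = 2 * b' := by ring
    rwa [x2, x3] at h'
  -- C(6j,2j)
  have w5 : WW p ((6 * j).choose (2 * j) : ℚ) 1 (3 * b') := by
    have y := choose_pm2 (p := p) (k := 2 * j) (by omega)
    rw [show p - 1 = 6 * j by omega] at y
    have e : (-1 : ℚ) ^ (2 * j) = 1 := by rw [pow_mul]; norm_num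
    rw [e] at y
    have w : WW p ((6 * j).choose (2 * j) : ℚ) 1 (-(p * H (2 * j))) :=
      ⟨U.one, ((I_p (p := p)).mulR (H_mem (by omega))).neg, by rw [← sub_eq_add_neg]; exact y⟩
    refine w.congr ?_
    have h' := E2.neg
    have x : -(-3 * b') = 3 * b' := by ring
    rwa [x] at h'
  have w6 : WW p ((64 : ℚ) ^ j) 1 a' := by
    have := WW.exact (U.one (p := p)) Ia
    have e : (1 : ℚ) * (1 + a') = 64 ^ j := by rw [ha]; ring
    rwa [e] at this
  have w7 : WW p ((-27 : ℚ) ^ j) 1 b' := by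
    have := WW.exact (U.one (p := p)) Ib
    have e : (1 : ℚ) * (1 + b') = (-27) ^ j := by rw [hb]; ring
    rwa [e] at this
  -- the prefactor
  have u14 : U p (-(1 / 4) : ℚ) := by
    have h1 : U p (-1 : ℚ) := ⟨by norm_num, neg_mem (one_mem _), by
      have : (-1 : ℚ)⁻¹ = -1 := by norm_num
      rw [this]; exact neg_mem (one_mem _)⟩
    have := h1.div u4
    have e : (-1 : ℚ) / 4 = -(1 / 4) := by ring
    rwa [e] at this
  have w0 := WW.refl u14
  have big := ((w0.mul ((w7.mul w7).mul (w7.mul w7))).div (w6.mul (w6.mul w6))).mul ((w1.mul (w3.mul w4)).div w2)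
  have f2 : ((6 * j).factorial : ℚ) = ((6 * j).choose (2 * j) : ℚ) * (2 * j).factorial * (4 * j).factorial := by
    have h1 := Nat.choose_mul_factorial_mul_factorial (show 2 * j ≤ 6 * j by omega)
    rw [show 6 * j - 2 * j = 4 * j by omega] at h1
    exact_mod_cast h1.symm
  have n2 : ((2 * j).factorial : ℚ) ≠ 0 := by exact_mod_cast (2 * j).factorial_ne_zero
  have n4 : ((4 * j).factorial : ℚ) ≠ 0 := by exact_mod_cast (4 * j).factorial_ne_zero
  have nC := w5.unit.1
  have second := w0.div w5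
  have x1 : -(1 / 4) * (1 * 1 * (1 * 1)) / (1 * (1 * 1)) * (1 * (((4 * j).factorial : ℚ) * (2 * j).factorial) / (6 * j).factorial) =
      -(1 / 4) / ((6 * j).choose (2 * j) : ℚ) := by
    rw [f2]
    field_simp
  rw [x1] at big
  have big2 := big.trans second
  rw [div_one] at big2
  -- the left side
  have hp3 : (p : ℚ) ≠ 0 := p_ne
  have hFA : FA (8 * j + 1) p = -(1 / 4) * ((-27) ^ j * (-27) ^ j * ((-27) ^ j * (-27) ^ j)) / (64 ^ j * (64 ^ j * 64 ^ j)) *
      (((p + 2 * j).choose p : ℚ) * ((∏ i ∈ range (4 * j), (1 + i + 2 * p / 3 : ℚ)) *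
        ∏ i ∈ range (2 * j), (1 + i + -(2 * p / 3) : ℚ)) / ∏ i ∈ range (6 * j), (1 + i + 3 * p : ℚ)) := by
    have g0 : FA (8 * j + 1) p = (-(9 / 8)) ^ p * ((∏ i ∈ range p, (((8 * j + 1 : ℕ) : ℚ) - i)) *
        (∏ i ∈ range p, (((8 * j + 1 : ℕ) : ℚ) - 1 / 3 - i)) /
        ((∏ i ∈ range p, (3 * ((8 * j + 1 : ℕ) : ℚ) - i)) * ∏ i ∈ range p, (1 + i : ℚ))) := by
      unfold FA
      rw [prod_div_distrib, prod_mul_distrib, prod_mul_distrib, prod_mul_distrib, prod_const, card_range]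
      ring
    have g1 : ∏ i ∈ range p, (((8 * j + 1 : ℕ) : ℚ) - i) = ((p + 2 * j).choose p : ℚ) * ∏ i ∈ range p, (1 + i : ℚ) := by
      rw [prod_choose _ _ (by omega), show 8 * j + 1 = p + 2 * j by omega]
      congr 1
      rw [← prod_range_add_one_eq_factorial]; push_cast
      exact prod_congr rfl fun i _ => add_comm _ _
    have g2 : ∏ i ∈ range p, (3 * ((8 * j + 1 : ℕ) : ℚ) - i) = (∏ i ∈ range (6 * j), (1 + i + 3 * p : ℚ)) * (3 * p) := by
      conv_lhs => rw [hpj, prod_range_succ]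
      congr 1
      · rw [← prod_range_reflect (fun i => (1 + i + 3 * p : ℚ))]
        refine prod_congr rfl fun i hi => ?_
        have hi' := mem_range.1 hi
        rw [Nat.sub_sub, Nat.cast_sub (show 1 + i ≤ 6 * j by omega), hpq]
        push_cast
        ring
      · rw [hpq]; push_cast; ring
    have g3 : ∏ i ∈ range p, (((8 * j + 1 : ℕ) : ℚ) - 1 / 3 - i) = (∏ i ∈ range (4 * j), (1 + i + 2 * p / 3 : ℚ)) *
        (2 * p / 3) * ∏ i ∈ range (2 * j), (1 + i + -(2 * p / 3) : ℚ) := by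
      conv_lhs => rw [hpj, show 6 * j + 1 = (4 * j + 1) + 2 * j by omega, prod_range_add, prod_range_succ]
      congr 1
      · congr 1
        · rw [← prod_range_reflect (fun i => (1 + i + 2 * p / 3 : ℚ))]
          refine prod_congr rfl fun i hi => ?_
          have hi' := mem_range.1 hi
          rw [Nat.sub_sub, Nat.cast_sub (show 1 + i ≤ 4 * j by omega), hpq]
          push_cast
          ring
        · rw [hpq]; push_cast; ring
      · have : ∏ i ∈ range (2 * j), (((8 * j + 1 : ℕ) : ℚ) - 1 / 3 - ((4 * j + 1 + i : ℕ) : ℚ)) =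
            ∏ i ∈ range (2 * j), (-1 * (1 + i + -(2 * p / 3) : ℚ)) := by
          refine prod_congr rfl fun i _ => ?_
          rw [hpq]; push_cast; ring
        have e0 : (-1 : ℚ) ^ (2 * j) = 1 := by rw [pow_mul]; norm_num
        rw [this, prod_mul_distrib, prod_const, card_range, e0, one_mul]
    have g4 : (-(9 / 8) : ℚ) ^ p = -(9 / 8) * (((-27) ^ j * (-27) ^ j * ((-27) ^ j * (-27) ^ j)) / (64 ^ j * (64 ^ j * 64 ^ j))) := by
      rw [hpj, pow_succ, pow_mul, ← mul_pow, ← mul_pow, ← mul_pow, ← mul_pow, ← div_pow, mul_comm]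
      congr 2
      norm_num
    have k1 := w2.unit.1
    have k2 : ∏ i ∈ range p, (1 + i : ℚ) ≠ 0 := prod_ne_zero_iff.2 fun i _ => by positivity
    rw [g0, g1, g2, g3, g4]
    have k64 : (64 : ℚ) ^ j ≠ 0 := by positivity
    generalize ∏ i ∈ range (6 * j), (1 + i + 3 * p : ℚ) = X1 at *
    generalize ∏ i ∈ range (4 * j), (1 + i + 2 * p / 3 : ℚ) = X2 at *
    generalize ∏ i ∈ range (2 * j), (1 + i + -(2 * p / 3) : ℚ) = X3 at *
    generalize ∏ i ∈ range p, (1 + i : ℚ) = X4 at *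
    generalize (64 : ℚ) ^ j = X5 at *
    generalize (-27 : ℚ) ^ j = X6 at *
    generalize ((p + 2 * j).choose p : ℚ) = X7 at *
    field_simp
    ring
  rw [hFA]
  have fin := big2.2.2
  have xs : (0 + (b' + b' + (b' + b')) - (a' + (a' + a')) + (-3 * b' + (-2 * b' + 2 * b') - 0) + (0 - 3 * b')) =
      -3 * a' - 2 * b' := by ring
  rw [xs] at fin
  have xt : -(1 / 4) * (1 + (-3 * a' - 2 * b')) = -(1 / 4) * (1 - 3 * a' - 2 * b') := by ring
  rw [xt] at fin
  exact fin

end Pool.Agent.R488.Sq
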